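import Pool.Agent.P.MP_638e8a_ag.ChDefsB

/-!
Correspondences through products of curves, classes invisible to curves, subspaces motivated by curves.
-/

open CategoryTheory

universe u v w

namespace Pool.Agent.P.MP_638e8a_ag.H67

open Pool.Agent.P.MP_90138e_ag Pool.Agent.P.MP_638e8a_ag.Cyc

variable {k : Type u} [Field k] {K : Type v} [Field K] (D : CohData.{u, v, w} k K)

/-- Products of smooth projective curves and points. -/
inductive CurveProd : SmProj k → Prop
  | curve (C : SmProj k) : C.dim ≤ 1 → CurveProd C
  | prod (C C' : SmProj k) : CurveProd C → CurveProd C' → CurveProd (C.prod C')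

/-- The span of the cycles on `Y × Y'` that are, up to rational equivalence, compositions of
correspondences `Y → C → Y'` with `C` a product of curves. -/
noncomputable def ViaCurves (Y Y' : SmProj k) : Submodule ℚ ((Y.prod Y').X.left →₀ ℚ) :=
  Submodule.span ℚ {γ | ∃ (C : SmProj k) (g : (Y.prod C).X.left →₀ ℚ)
    (w : (C.prod Y').X.left →₀ ℚ), CurveProd C ∧ IsComp w g γ}

/-- The class `t` is killed by all correspondences to varieties of curve type. -/
def Transc (Y : SmProj k) (t : D.H Y) : Prop :=
  ∀ (P : SmProj k) (g : D.H Y →ₗ[K] D.H P), CurveType D P → IsCorr D g → g t = 0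

/-- An algebraic correspondence `u` maps a cohomology group `e H^a(X)` of a homological motive
`(X, e)`, with `X` of curve type, bijectively onto `U`. -/
def MotSub (Y : SmProj k) (U : Submodule K (D.H Y)) : Prop :=
  ∃ (X : SmProj k) (a : ℕ) (e : D.H X →ₗ[K] D.H X) (u : D.H X →ₗ[K] D.H Y),
    CurveType D X ∧ (∃ c, HasCodim c X.dim ∧ Acts D c e) ∧ IsCorr D u ∧
      MapsSummandOnto e u (D.deg X a) U

end Pool.Agent.P.MP_638e8a_ag.H67
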