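import Pool.Agent.P.MP_638e8a_ag_H67.Ideal
import Pool.Agent.P.MP_638e8a_ag_H67.Defs
import Pool.Agent.P.MP_638e8a_ag.ChDim

/-!
Correspondences supported on graphs, and correspondences that factor through curves.
-/

open CategoryTheory AlgebraicGeometry MonoidalCategory CartesianMonoidalCategory Order

universe u v w

namespace Pool.Agent.P.MP_638e8a_ag.H67

open Pool.Agent.P.MP_90138e_ag
open Pool.Agent.P.MP_90138e_ag.WeilCohomology (fstH sndH)

variable {k : Type u} [Field k] {T : ChowTheory k} {S X X' Y Y' Z C : SmProj k}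

theorem tp_push (a : Z.X ⟶ X.X) (b : Z.X ⟶ Y.X) (η : T.A Z) :
    T.tp (T.push (pair a b) η) = T.push (pair b a) η := by
  rw [ChowTheory.tp, ChowTheory.ev, ← T.push_eq_pull _ _ (ChowTheory.swap_swap X Y)
    (ChowTheory.swap_swap Y X), ← T.push_comp, comp_pair, pair_snd, pair_fst]

/-- Composition with a correspondence supported on a transposed graph. -/
theorem comp_graph (a : Z.X ⟶ X.X) (η : T.A Z) (w : T.A (Z.prod Y)) :
    T.comp w (T.push (pair a (𝟙 Z.X)) η) =
      T.push (pair (fstH Z Y ≫ a) (sndH Z Y)) (T.pull (fstH Z Y) η * w) := by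
  have e1 : pair (pair (fstH (X.prod Y) Z ≫ fstH X Y) (sndH _ _)) (fstH _ _ ≫ sndH X Y) ≫
      pair (pair (fstH (X.prod Z) Y ≫ fstH X Z) (sndH _ _)) (fstH _ _ ≫ sndH X Z) = 𝟙 _ :=
    prod_ext (prod_ext (by simp) (by simp)) (by simp)
  have e2 : pair (pair (fstH (X.prod Z) Y ≫ fstH X Z) (sndH _ _)) (fstH _ _ ≫ sndH X Z) ≫
      pair (pair (fstH (X.prod Y) Z ≫ fstH X Y) (sndH _ _)) (fstH _ _ ≫ sndH X Y) = 𝟙 _ :=
    prod_ext (prod_ext (by simp) (by simp)) (by simp)
  have h1 : T.ev (T.push (pair a (𝟙 Z.X)) η) (fstH (X.prod Y) Z ≫ fstH X Y) (sndH _ _) =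
      T.push (pair (pair (fstH Z Y ≫ a) (sndH Z Y)) (fstH Z Y)) (T.pull (fstH Z Y) η) := by
    have h2 : pair (fstH (X.prod Y) Z ≫ fstH X Y) (sndH (X.prod Y) Z) =
        pair (pair (fstH (X.prod Y) Z ≫ fstH X Y) (sndH _ _)) (fstH _ _ ≫ sndH X Y) ≫
          fstH (X.prod Z) Y := (pair_fst _ _).symm
    rw [ChowTheory.ev, h2, T.pull_comp, T.base_change, ← T.push_eq_pull _ _ e2 e1, ← T.push_comp]
    congr 2
    exact prod_ext (prod_ext (by simp) (by simp)) (by simp)
  rw [T.comp_eq, h1, ChowTheory.ev, ← T.projection, ← T.pull_comp, ChowTheory.int, ← T.push_comp,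
    pair_fst, comp_pair, pair_snd, pair_fst_assoc, pair_snd, pair_fst_snd, T.pull_id]

theorem comp_graph_graph (a : Z.X ⟶ X.X) (b : Z.X ⟶ Y.X) (η η' : T.A Z) :
    T.comp (T.push (pair (𝟙 Z.X) b) η') (T.push (pair a (𝟙 Z.X)) η) =
      T.push (pair a b) (η * η') := by
  rw [comp_graph, ← T.projection', ← T.pull_comp, pair_fst, T.pull_id, ← T.push_comp, comp_pair,
    pair_fst_assoc, Category.id_comp, pair_snd]

/-- Correspondences that factor through products of curves. -/
noncomputable def Thru (T : ChowTheory k) (X Y : SmProj k) : Submodule ℚ (T.A (X.prod Y)) :=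
  Submodule.span ℚ {x | ∃ (C : SmProj k) (g : T.A (X.prod C)) (w : T.A (C.prod Y)),
    CurveProd C ∧ T.comp w g = x}

theorem exists_over (i : C.X ⟶ S.X) (z : (S.prod Y).X.left)
    (hz : (fstH S Y).left z ∈ Set.range i.left) :
    z ∈ Set.range (pair (fstH C Y ≫ i) (sndH C Y)).left := by
  have h : IsPullback (pair (fstH C Y ≫ i) (sndH C Y)) (fstH C Y) (fstH S Y) i := by
    refine ⟨⟨pair_fst _ _⟩, ⟨Limits.PullbackCone.IsLimit.mk _
      (fun s => lift s.snd (s.fst ≫ snd S.X Y.X)) (fun s => ?_) (fun s => lift_fst _ _)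
      fun s m h1 h2 => ?_⟩⟩
    · refine CartesianMonoidalCategory.hom_ext _ _ ?_ ?_
      · exact (Category.assoc _ _ _).trans <| (congrArg (_ ≫ ·) (lift_fst _ _)).trans <|
          (lift_fst_assoc _ _ _).trans s.condition.symm
      · exact (Category.assoc _ _ _).trans <| (congrArg (_ ≫ ·) (lift_snd _ _)).trans
          (lift_snd _ _)
    · refine CartesianMonoidalCategory.hom_ext _ _ (h2.trans (lift_fst _ _).symm) ?_
      refine Eq.trans ?_ (lift_snd _ _).symm
      rw [← h1]
      exact ((Category.assoc _ _ _).trans (congrArg (_ ≫ ·) (lift_snd _ _))).symm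
  have h' := h.map (Over.forget _)
  obtain ⟨c, hc⟩ := hz
  obtain ⟨t, ht, -⟩ := Scheme.exists_preimage_of_isPullback h' z c hc.symm
  exact ⟨t, ht⟩

theorem cl_mem_thru (i : C.X ⟶ S.X) (hC : CurveProd C) (z : (S.prod Y).X.left)
    (hz : (fstH S Y).left z ∈ Set.range i.left) : T.cl (S.prod Y) z ∈ Thru T S Y := by
  set f := pair (fstH C Y ≫ i) (sndH C Y) with hf
  have h : f.left ≫ (S.prod Y).X.hom = (C.prod Y).X.hom := Over.w f
  have h1 : LocallyOfFiniteType (f.left ≫ (S.prod Y).X.hom) := h ▸ inferInstance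
  have h2 : LocallyOfFiniteType f.left := locallyOfFiniteType_of_comp f.left (S.prod Y).X.hom
  obtain ⟨t, rfl, ht⟩ := exists_residueDegree_ne_zero f.left z (exists_over i z hz)
  have h3 : T.comp (T.cl _ t) (T.push (pair i (𝟙 C.X)) 1) =
      f.left.residueDegree t • T.cl (S.prod Y) (f.left t) := by
    rw [comp_graph, map_one, one_mul, T.push_cl]
  have h4 : T.cl (S.prod Y) (f.left t) = (f.left.residueDegree t : ℚ)⁻¹ •
      T.comp (T.cl _ t) (T.push (pair i (𝟙 C.X)) 1) := by
    rw [h3, ← Nat.cast_smul_eq_nsmul ℚ, smul_smul, inv_mul_cancel₀ (Nat.cast_ne_zero.2 ht),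
      one_smul]
  rw [h4]
  exact Submodule.smul_mem _ _ (Submodule.subset_span ⟨C, _, _, hC, rfl⟩)

variable [IsAlgClosed k] {K : Type v} [Field K] [CharZero K] {W : WeilCohomology.{u, v, w} k K}
  (R : CycleMap T W)

theorem fd_diag (hC : C.dim ≤ 1) : FD R (T.diag C) := by
  by_cases h0 : C.dim = 0
  · have h1 : T.diag C ∈ T.CH (C.prod C) 0 := h0 ▸ T.diag_mem C
    have h2 : T.FinRk false (T.diag C) := by
      obtain ⟨q, hq⟩ : ∃ q : ℚ, q • (1 : T.A (C.prod C)) = T.diag C := by
        refine Submodule.mem_span_singleton.1 (Submodule.span_le.2 ?_ h1)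
        rintro _ ⟨t, ht, rfl⟩
        obtain rfl : t = (C.prod C).gen := ((C.prod C).coheight_eq_zero_iff t).1 (by simpa using ht)
        rw [T.cl_gen]
        exact Submodule.mem_span_singleton_self _
      have h3 := ChowTheory.finRk_rank_one (T := T) (q • (1 : T.A C)) (1 : T.A C)
      rwa [map_smul, map_one, map_one, mul_one, hq] at h3
    refine ⟨_, HF.of_mem h1 h2, 0, zero_mem _, par_of_forall fun m x hx hm => ?_,
      by rw [R.op_zero]; exact Par.zero, add_zero _⟩
    have hm0 : m ≠ 0 := by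
      rintro rfl
      simp at hm
    rw [W.deg_eq_bot C m (by omega), Submodule.mem_bot] at hx
    rw [hx, map_zero]
  have hX : C.dim = 1 := by omega
  obtain ⟨z, hz, -⟩ := C.exists_closed_le C.gen
  obtain ⟨s, hs⟩ := C.exists_point z hz
  have hc : T.cl C z ∈ T.CH C 1 := hX ▸ T.cl_mem (W.coheight_closed C z hz)
  have hd : W.cl C z ∈ W.deg C 2 := by
    have := R.γ_mem hc
    rwa [R.γ_cl] at this
  have h1 := ChowTheory.finRk_rank_one (T := T) (T.cl C z) (1 : T.A C)
  have h2 := ChowTheory.finRk_rank_one (T := T) (1 : T.A C) (T.cl C z)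
  have h3 := finRk_curve R hX s
  rw [hs] at h3
  have e1 : ∀ x, R.op (T.pull (fstH C C) (T.cl C z)) x = W.tr C (x * W.cl C z) • 1 := fun x => by
    have := R.op_rank_one (T.cl C z) (1 : T.A C) x
    rwa [map_one, mul_one, map_one, R.γ_cl] at this
  have e2 : ∀ x, R.op (T.pull (sndH C C) (T.cl C z)) x = W.tr C x • W.cl C z := fun x => by
    have := R.op_rank_one (1 : T.A C) (T.cl C z) x
    rwa [map_one, one_mul, map_one, mul_one, R.γ_cl] at this
  rw [map_one, mul_one] at h1
  rw [map_one, one_mul] at h2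
  have t1 : ∀ m, m ≠ 0 → ∀ x ∈ W.deg C m, W.tr C (x * W.cl C z) = 0 := fun m hm x hx =>
    W.tr_deg C (m + 2) (by omega) _ (WeilCohomology.mul_mem_deg hx hd)
  have t2 : ∀ m, m ≠ 2 → ∀ x ∈ W.deg C m, W.tr C x = 0 := fun m hm x hx =>
    W.tr_deg C m (by omega) x hx
  refine ⟨_, HF.of_mem (j := 1) (add_mem (T.pull_mem _ hc) (T.pull_mem _ hc)) (h1.add h2), _,
    HF.of_mem (j := 1) (sub_mem (sub_mem (hX ▸ T.diag_mem C) (T.pull_mem _ hc))
      (T.pull_mem _ hc)) h3,
    par_of_forall fun m x hx hm => ?_, par_of_forall fun m x hx hm => ?_, by abel⟩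
  · have ho : Odd m := by simpa using hm
    rw [R.op_add, LinearMap.add_apply, e1, e2, t1 m (by rintro rfl; simp at ho) x hx,
      t2 m (by rintro rfl; exact absurd ho (by decide)) x hx]
    simp
  · have ho : ¬ Odd m := by simpa using hm
    rw [R.op_sub, R.op_sub, R.op_diag, LinearMap.sub_apply, LinearMap.sub_apply, e1, e2,
      LinearMap.id_apply]
    rcases (by omega : m = 0 ∨ m = 1 ∨ m = 2 ∨ 2 < m) with rfl | rfl | rfl | hm'
    · obtain ⟨c, rfl⟩ := W.exists_eq_smul_one _ x hx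
      rw [t2 0 (by omega) _ hx, smul_mul_assoc, one_mul, map_smul, W.tr_cl C z hz]
      simp
    · exact absurd (by decide) ho
    · rw [t1 2 (by omega) x hx, zero_smul, sub_zero, sub_eq_zero]
      exact W.top_eq C z hz x (by rw [hX]; exact hx)
    · rw [W.deg_eq_bot C m (by omega), Submodule.mem_bot] at hx
      subst hx
      simp

omit [IsAlgClosed k] in
theorem boxc_add_left (x y : T.A (X.prod Y)) (z : T.A (X'.prod Y')) :
    T.boxc (x + y) z = T.boxc x z + T.boxc y z := by
  simp only [ChowTheory.boxc, ChowTheory.ev, map_add, add_mul]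

omit [IsAlgClosed k] in
theorem boxc_add_right (x : T.A (X.prod Y)) (y z : T.A (X'.prod Y')) :
    T.boxc x (y + z) = T.boxc x y + T.boxc x z := by
  simp only [ChowTheory.boxc, ChowTheory.ev, map_add, mul_add]

omit [IsAlgClosed k] in
theorem HF.boxc {b b' : Bool} {x : T.A (X.prod Y)} {y : T.A (X'.prod Y')} (h : x ∈ HF T b X Y)
    (h' : y ∈ HF T b' X' Y') : T.boxc x y ∈ HF T (xor b b') _ _ := by
  induction h using AddSubmonoid.closure_induction with
  | mem x hx =>
    induction h' using AddSubmonoid.closure_induction with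
    | mem y hy =>
      obtain ⟨⟨i, hi⟩, hx⟩ := hx
      obtain ⟨⟨j, hj⟩, hy⟩ := hy
      exact HF.of_mem (T.boxc_mem hi hj) (hx.boxc hy)
    | zero =>
      simp only [ChowTheory.boxc, ChowTheory.ev, map_zero, mul_zero]
      exact zero_mem _
    | add y z _ _ hy hz => rw [boxc_add_right]; exact add_mem hy hz
  | zero =>
    simp only [ChowTheory.boxc, ChowTheory.ev, map_zero, zero_mul]
    exact zero_mem _
  | add y z _ _ hy hz => rw [boxc_add_left]; exact add_mem hy hz

variable {R} in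
theorem FD.boxc {x : T.A (X.prod Y)} {y : T.A (X'.prod Y')} (h : FD R x) (h' : FD R y) :
    FD R (T.boxc x y) := by
  obtain ⟨x₀, a, x₁, b, c, d, rfl⟩ := h
  obtain ⟨y₀, a', y₁, b', c', d', rfl⟩ := h'
  have a1 := HF.boxc a a'
  have a2 := HF.boxc b b'
  have b1 := HF.boxc a b'
  have b2 := HF.boxc b a'
  have c1 := c.box c'
  have c2 := d.box d'
  have d1 := c.box d'
  have d2 := d.box c'
  rw [Bool.xor_self] at a1 a2 c1 c2
  rw [Bool.false_xor] at b1 d1
  rw [Bool.xor_false] at b2 d2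
  refine ⟨_, add_mem a1 a2, _, add_mem b1 b2, ?_, ?_, ?_⟩
  · rw [R.op_add, R.op_boxc, R.op_boxc]
    exact c1.add c2
  · rw [R.op_add, R.op_boxc, R.op_boxc]
    exact d1.add d2
  · rw [boxc_add_left, boxc_add_right, boxc_add_right]
    abel

omit [IsAlgClosed k] in
theorem dl_mul_graph (a : S.X ⟶ X.X) (a' : S.X ⟶ Y.X) :
    T.dl (fstH S (X.prod Y) ≫ a) (sndH _ _ ≫ fstH X Y) *
      T.dl (fstH S (X.prod Y) ≫ a') (sndH _ _ ≫ sndH X Y) =
      T.push (pair (𝟙 S.X) (pair a a')) 1 := by
  have h1 : T.pull (fstH (S.prod X) Y) (T.dl (fstH S X ≫ a) (sndH S X)) *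
      T.dl (fstH (S.prod X) Y ≫ fstH S X ≫ a') (sndH _ _) =
      T.push (pair (𝟙 S.X) a ≫ pair (𝟙 _) (fstH S X ≫ a')) 1 := by
    rw [T.dl_graph (fstH S X ≫ a'), ← T.projection', ← T.pull_comp, pair_fst, T.pull_id, mul_one,
      T.dl_graph, T.push_comp]
  have h2 := congrArg (T.pull (pair (pair (fstH S (X.prod Y)) (sndH _ _ ≫ fstH X Y))
    (sndH _ _ ≫ sndH X Y))) h1
  rw [← T.push_eq_pull _ _ (ChowTheory.assoc_hom_inv S X Y) (ChowTheory.assoc_inv_hom S X Y)
    (T.push _ 1), ← T.push_comp, map_mul, T.pull_dl, T.pull_dl, T.pull_dl] at h2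
  simp only [pair_fst_assoc, pair_snd, pair_fst, comp_pair, Category.id_comp,
    Category.comp_id] at h2
  exact h2

omit [IsAlgClosed k] in
theorem boxc_diag (X Y : SmProj k) : T.boxc (T.diag X) (T.diag Y) = T.diag (X.prod Y) := by
  have h := dl_mul_graph (T := T) (fstH X Y) (sndH X Y)
  rw [pair_fst_snd] at h
  exact h

theorem fd_diag' (hC : CurveProd C) : FD R (T.diag C) := by
  induction hC with
  | curve C h => exact fd_diag R h
  | prod C C' _ _ h h' =>
    rw [← boxc_diag]
    exact h.boxc h'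

theorem CurveProd.curveType (hC : CurveProd C) : W.CurveType C := by
  induction hC with
  | curve C h => exact .curve C h
  | prod C C' _ _ h h' => exact .prod C C' h h'

theorem fd_of_thru {x : T.A (X.prod Y)} (h : x ∈ Thru T X Y) : FD R x := by
  induction h using Submodule.span_induction with
  | mem y hy =>
    obtain ⟨C, g, w, hC, rfl⟩ := hy
    have h1 := ((fd_diag' R hC).comp_right g).comp_left w
    rwa [T.diag_comp] at h1
  | zero => exact FD.zero
  | add y z _ _ hy hz => exact hy.add hz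
  | smul q y _ hy => exact hy.smul q

theorem op_smul (q : ℚ) (x : T.A (X.prod Y)) : R.op (q • x) = (q : K) • R.op x := by
  ext a
  rw [LinearMap.smul_apply, R.op_apply, R.op_apply, R.γ_smul, mul_smul_comm, map_smul]

/-- The classes killed by all correspondences to varieties of curve type. -/
def Tr (W : WeilCohomology.{u, v, w} k K) (S : SmProj k) (t : W.H S) : Prop :=
  ∀ (P : SmProj k) (g : W.H S →ₗ[K] W.H P), W.CurveType P → W.AlgOp g → g t = 0

theorem op_thru {x : T.A (X.prod Y)} (h : x ∈ Thru T X Y) {t : W.H X} (ht : Tr W X t) :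
    R.op x t = 0 := by
  induction h using Submodule.span_induction with
  | mem y hy =>
    obtain ⟨C, g, w, hC, rfl⟩ := hy
    rw [R.op_comp, LinearMap.comp_apply, ht C _ hC.curveType (R.algOp_op g), map_zero]
  | zero => rw [R.op_zero, LinearMap.zero_apply]
  | add y z _ _ hy hz => rw [R.op_add, LinearMap.add_apply, hy, hz, add_zero]
  | smul q y _ hy => rw [op_smul, LinearMap.smul_apply, hy, smul_zero]

end Pool.Agent.P.MP_638e8a_ag.H67
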