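import Pool.Agent.P.MP_638e8a_ag_H67.Corr

/-!
The projector onto the part of the cohomology that comes from curves.
-/

open CategoryTheory AlgebraicGeometry MonoidalCategory CartesianMonoidalCategory Order

universe u v w

namespace Pool.Agent.P.MP_638e8a_ag.H67

open Pool.Agent.P.MP_90138e_ag

variable {k : Type u} [Field k] [IsAlgClosed k] {K : Type v} [Field K] [CharZero K]
  {T : ChowTheory k} {W : WeilCohomology.{u, v, w} k K} {X Y : SmProj k}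

theorem Tr.map {t : W.H X} (h : Tr W X t) {g : W.H X →ₗ[K] W.H Y} (hg : W.AlgOp g) :
    Tr W Y (g t) := fun P g' hP hg' => h P (g' ∘ₗ g) hP (hg'.comp hg)

theorem Tr.add {s t : W.H X} (h : Tr W X s) (h' : Tr W X t) : Tr W X (s + t) :=
  fun P g hP hg => by rw [map_add, h P g hP hg, h' P g hP hg, add_zero]

theorem Tr.sum {ι : Type*} (s : Finset ι) (t : ι → W.H X) (h : ∀ i ∈ s, Tr W X (t i)) :
    Tr W X (∑ i ∈ s, t i) :=
  fun P g hP hg => by rw [map_sum, Finset.sum_eq_zero fun i hi => h i hi P g hP hg]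

/-- `U` is the bijective image of a summand of the cohomology of a variety of curve type. -/
def MotS (W : WeilCohomology.{u, v, w} k K) (Y : SmProj k) (U : Submodule K (W.H Y)) : Prop :=
  ∃ (X : SmProj k) (P : W.H X →ₗ[K] W.H X) (A : W.H X →ₗ[K] W.H Y), W.CurveType X ∧
    W.AlgOp P ∧ W.AlgOp A ∧ P ∘ₗ P = P ∧ A ∘ₗ P = A ∧ Set.BijOn A (LinearMap.range P) U

theorem motS_of {U : Submodule K (W.H Y)} {a : ℕ} {e : W.H X →ₗ[K] W.H X}
    {u : W.H X →ₗ[K] W.H Y} (hX : W.CurveType X) {ε : W.H (X.prod X)}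
    (hε : ε ∈ W.C (X.prod X) X.dim) (hi : W.Induces ε e) (hu : W.IsCorr u)
    (h : MapsSummandOnto e u (W.deg X a) U) : MotS W Y U := by
  obtain ⟨he, hb⟩ := h
  obtain ⟨S, hS⟩ := hX.exists_pieces
  have hee : ∀ x, e (e x) = e x := fun x => LinearMap.congr_fun he x
  have hP : W.AlgOp (e ∘ₗ W.proj X a) :=
    WeilCohomology.AlgOp.comp ⟨ε, WeilCohomology.IsAlg.of_C hε, hi⟩ (hS.algOp_proj a)
  have hdeg : ∀ x, e (W.proj X a x) ∈ W.deg X a := fun x =>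
    deg_of_induces hε hi (W.proj_mem X a x)
  have hPP : (e ∘ₗ W.proj X a) ∘ₗ (e ∘ₗ W.proj X a) = e ∘ₗ W.proj X a :=
    LinearMap.ext fun x => by
      simp only [LinearMap.comp_apply]
      rw [W.proj_of_mem (hdeg x), hee]
  have hr : (LinearMap.range (e ∘ₗ W.proj X a) : Set (W.H X)) =
      {x | x ∈ W.deg X a ∧ e x = x} := by
    ext x
    constructor
    · rintro ⟨y, rfl⟩
      exact ⟨hdeg y, hee _⟩
    · rintro ⟨h1, h2⟩
      exact ⟨x, by rw [LinearMap.comp_apply, W.proj_of_mem h1, h2]⟩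
  refine ⟨X, e ∘ₗ W.proj X a, u ∘ₗ (e ∘ₗ W.proj X a), hX, hP,
    (WeilCohomology.AlgOp.of_isCorr hu).comp hP, hPP, by rw [LinearMap.comp_assoc, hPP], ?_⟩
  rw [hr]
  refine hb.congr fun x hx => ?_
  simp only [LinearMap.comp_apply]
  rw [W.proj_of_mem hx.1, hx.2]

theorem exists_phi (R : CycleMap T W) {ξ : W.H Y} (hξ : W.IsAlg ξ)
    (hL : HardLefschetz (W.deg Y) Y.dim ξ) {n : ℕ} (hn : n ≤ Y.dim) {U : Submodule K (W.H Y)}
    (hU : U ≤ W.deg Y n) (h : MotS W Y U) (hg : ∀ x ∈ W.deg Y n, ∃ y ∈ U, Tr W Y (x - y)) :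
    ∃ φ : W.H Y →ₗ[K] W.H Y, FDOp R φ ∧ (∀ y ∈ U, φ y = y) ∧
      (∀ m, m ≠ n → ∀ x ∈ W.deg Y m, φ x = 0) ∧ ∀ t, Tr W Y t → φ t = 0 := by
  obtain ⟨X, P, A, hX, hP, hA, hPP, hAP, hb⟩ := h
  have hL' := hL n hn
  set L : W.H Y →ₗ[K] W.H Y := LinearMap.mulLeft K (ξ ^ (Y.dim - n)) with hLd
  have hLa : W.AlgOp L := WeilCohomology.AlgOp.mulLeft (hξ.pow _)
  have hA' : W.AlgOp (L ∘ₗ A) := hLa.comp hA
  have hAP' : (L ∘ₗ A) ∘ₗ P = L ∘ₗ A := by rw [LinearMap.comp_assoc, hAP]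
  have hnn : n + (2 * Y.dim - n) = 2 * Y.dim := by omega
  have hAU : ∀ x, A x ∈ U := fun x => by
    rw [← LinearMap.congr_fun hAP x]
    exact hb.mapsTo ⟨x, rfl⟩
  obtain ⟨g, hg'⟩ := ((L ∘ₗ A) ∘ₗ (LinearMap.range P).subtype).exists_leftInverse_of_injective
    (LinearMap.ker_eq_bot.mpr fun x y hxy => Subtype.ext
      (hb.injOn x.2 y.2 (hL'.injOn (hU (hAU _)) (hU (hAU _)) hxy)))
  have hσ : ((LinearMap.range P).subtype ∘ₗ g) ∘ₗ (L ∘ₗ A) = P := by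
    refine LinearMap.ext fun x => ?_
    have h1 : (L ∘ₗ A) x = (L ∘ₗ A) (P x) := (LinearMap.congr_fun hAP' x).symm
    have h2 := congrArg Subtype.val (LinearMap.congr_fun hg' ⟨P x, x, rfl⟩)
    rw [LinearMap.comp_apply, h1]
    exact h2
  have hpU : W.proj Y (2 * Y.dim - n) ∘ₗ (L ∘ₗ A) = L ∘ₗ A :=
    LinearMap.ext fun x => W.proj_of_mem (hL'.mapsTo (hU (hAU x)))
  have hT1 : W.tpose P ∘ₗ W.tpose (L ∘ₗ A) = W.tpose (L ∘ₗ A) := by rw [← W.tpose_comp, hAP']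
  have hT2 : W.tpose (L ∘ₗ A) ∘ₗ W.tpose ((LinearMap.range P).subtype ∘ₗ g) = W.tpose P := by
    rw [← W.tpose_comp, hσ]
  have hT3 : W.tpose (L ∘ₗ A) ∘ₗ W.proj Y n = W.tpose (L ∘ₗ A) := by
    rw [← W.tpose_proj n _ hnn, ← W.tpose_comp, hpU]
  have hbT : Set.BijOn (W.tpose (L ∘ₗ A)) U (LinearMap.range (W.tpose P)) := by
    refine ⟨fun y _ => ⟨_, LinearMap.congr_fun hT1 y⟩, fun y hy y' hy' hyy => ?_, ?_⟩
    · have h0 : y - y' ∈ U := sub_mem hy hy'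
      refine sub_eq_zero.mp (W.poincare_deg Y n _ hnn _ (hU h0) fun z hz => ?_)
      obtain ⟨x, hx, rfl⟩ := hL'.surjOn hz
      obtain ⟨y₁, hy₁, ht⟩ := hg x hx
      obtain ⟨w, -, hw⟩ := hb.surjOn hy₁
      obtain ⟨w', -, hw'⟩ := hb.surjOn h0
      have e1 : W.tr Y ((y - y') * (L ∘ₗ A) w) = 0 := by
        rw [← W.tr_tpose_mul, map_sub, hyy, sub_self, zero_mul, map_zero]
      have e2 : W.tr Y ((y - y') * L (x - y₁)) = 0 := by
        rw [W.mul_comm Y n _ _ (hU h0) (L (x - y₁)) (hL'.mapsTo (sub_mem hx (hU hy₁))), map_smul,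
          ← hw', ← W.tr_tpose_mul, ht.map hLa X _ hX hA.tpose, zero_mul, map_zero, smul_zero]
      have e3 : L x = (L ∘ₗ A) w + L (x - y₁) := by
        rw [LinearMap.comp_apply, hw, ← map_add, add_sub_cancel]
      change W.tr Y ((y - y') * L x) = 0
      rw [e3, mul_add, map_add, e1, e2, add_zero]
    · rintro _ ⟨w, rfl⟩
      obtain ⟨y, hy, ht⟩ := hg _
        (W.proj_mem Y n (W.tpose ((LinearMap.range P).subtype ∘ₗ g) w))
      refine ⟨y, hy, ?_⟩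
      have e1 := ht X _ hX hA'.tpose
      rw [map_sub, sub_eq_zero] at e1
      rw [← e1, ← LinearMap.congr_fun hT2 w]
      exact LinearMap.congr_fun hT3 _
  obtain ⟨θ, hθ, hθ'⟩ := exists_inverse_idem hX hX P (W.tpose P) (W.tpose (L ∘ₗ A) ∘ₗ A) hP
    hP.tpose (hA'.tpose.comp hA) hPP (by rw [← W.tpose_comp, hPP]) (hbT.comp hb)
  refine ⟨A ∘ₗ LinearMap.id ∘ₗ θ ∘ₗ W.tpose (L ∘ₗ A),
    FDOp.comp (fd_of_curveType R hX) hA (hθ.comp hA'.tpose), fun y hy => ?_, fun m hm x hx => ?_,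
    fun t ht => ?_⟩
  · obtain ⟨x, hx, rfl⟩ := hb.surjOn hy
    exact congrArg A (hθ' x hx)
  · change A (θ (W.tpose (L ∘ₗ A) x)) = 0
    rw [← LinearMap.congr_fun hT3 x, LinearMap.comp_apply, W.proj_of_mem_ne hx hm, map_zero,
      map_zero, map_zero]
  · change A (θ (W.tpose (L ∘ₗ A) t)) = 0
    rw [ht X _ hX hA'.tpose, map_zero, map_zero]

end Pool.Agent.P.MP_638e8a_ag.H67
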