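import Pool.Agent.P.MP_638e8a_ag_H67.Geo

/-!
Several fibrations with fibrewise dual cycles.
-/

open CategoryTheory AlgebraicGeometry MonoidalCategory CartesianMonoidalCategory Order

universe u v w

namespace Pool.Agent.P.MP_638e8a_ag.H67

open Pool.Agent.P.MP_90138e_ag
open Pool.Agent.P.MP_90138e_ag.WeilCohomology (fstH sndH)

variable {k : Type u} [Field k] {T : ChowTheory k} {X Y Y' B : SmProj k}

/-- The subvariety `t` of `Y` lies in the image of a product of curves. -/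
def OnCurve (Y : SmProj k) (t : Y.X.left) : Prop :=
  ∃ (C : SmProj k) (i : C.X ⟶ Y.X), CurveProd C ∧ t ∈ Set.range i.left

theorem push_cl_thru (a : X.X ⟶ Y.X) (b : X.X ⟶ Y'.X) {z : X.X.left}
    (h : OnCurve Y (a.left z)) : T.push (pair a b) (T.cl X z) ∈ Thru T Y Y' := by
  obtain ⟨C, i, hC, h⟩ := h
  rw [T.push_cl]
  refine nsmul_mem (cl_mem_thru i hC _ ?_) _
  have e : (fstH Y Y').left ((pair a b).left z) = a.left z := by
    rw [← Scheme.Hom.comp_apply, ← Over.comp_left, pair_fst]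
  rwa [e]

theorem thru_fst (a : X.X ⟶ Y.X) (b : X.X ⟶ Y'.X) {z : X.X.left} (h : OnCurve Y (a.left z))
    (w : T.A X) : T.push (pair a b) (w * T.cl X z) ∈ Thru T Y Y' := by
  rw [mul_comm, ← gV_gU]
  exact thru_left (push_cl_thru a _ h) _

theorem exists_smul_one {x : T.A X} (hx : x ∈ T.CH X 0) : ∃ q : ℚ, x = q • 1 := by
  have h : x ∈ Submodule.span ℚ {(1 : T.A X)} := by
    refine Submodule.span_le.2 ?_ hx
    rintro _ ⟨t, ht, rfl⟩
    obtain rfl : t = X.gen := (X.coheight_eq_zero_iff t).1 (by simpa using ht)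
    rw [T.cl_gen]
    exact Submodule.mem_span_singleton_self _
  obtain ⟨q, hq⟩ := Submodule.mem_span_singleton.1 h
  exact ⟨q, hq.symm⟩

/-- Classes supported on subvarieties that map into images of products of curves. -/
noncomputable def OverC (T : ChowTheory k) (a : X.X ⟶ Y.X) : Submodule ℚ (T.A X) :=
  Submodule.span ℚ (T.cl X '' {z | OnCurve Y (a.left z)})

theorem over_fst (a : X.X ⟶ Y.X) (b : X.X ⟶ Y'.X) {x : T.A X} (h : x ∈ OverC T a) (w : T.A X) :
    T.push (pair a b) (w * x) ∈ Thru T Y Y' := by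
  have h1 : OverC T a ≤ (Thru T Y Y').comap (T.push (pair a b) ∘ₗ LinearMap.mulLeft ℚ w) := by
    refine Submodule.span_le.2 ?_
    rintro _ ⟨z, hz, rfl⟩
    exact thru_fst a b hz w
  exact h1 h

theorem thru_swap {a : X.X ⟶ Y.X} {b : X.X ⟶ Y'.X} {x w : T.A X}
    (h : T.push (pair b a) (w * x) ∈ Thru T Y' Y) : T.push (pair a b) (x * w) ∈ Thru T Y Y' := by
  rw [mul_comm, ← tp_push]
  exact thru_tp h

theorem diag_thru (p : X.X ⟶ B.X) {w : T.A X} {i : ℕ} (hw : w ∈ T.CH X i)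
    (h : ∀ t : B.X.left, coheight t + X.dim = i + B.dim → OnCurve B t) :
    T.push (pair p p) w ∈ Thru T B B := by
  rw [push_pair_self]
  by_cases h0 : i + B.dim < X.dim
  · rw [T.push_eq_zero p h0 hw, map_zero]
    exact zero_mem _
  · refine T.CH_map_mem (j := i + B.dim - X.dim) _ (fun t ht => push_cl_thru _ _ (h t ?_))
      (T.push_mem _ (by omega) hw)
    rw [ht]
    norm_cast
    omega

theorem key_le {d b b' c c' : ℕ} (hc' : c' ≤ d)
    (h : b * (d + 1) + c ≤ b' * (d + 1) + c') : b < b' ∨ b = b' ∧ c ≤ c' := by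
  rcases lt_trichotomy b b' with h1 | rfl | h1
  · exact .inl h1
  · exact .inr ⟨rfl, by omega⟩
  · have := Nat.mul_le_mul_right (d + 1) (Nat.succ_le_of_lt h1)
    rw [Nat.succ_mul] at this
    omega

variable [IsAlgClosed k] {K : Type v} [Field K] [CharZero K] {W : WeilCohomology.{u, v, w} k K}

theorem exists_deg (R : CycleMap T W) (p : X.X ⟶ B.X) {w : T.A X} {i : ℕ} (hw : w ∈ T.CH X i)
    (hi : i + B.dim = X.dim) :
    ∃ r : ℚ, T.push p w = r • 1 ∧ ((∃ y, W.tr X (R.γ X w * W.pull p y) ≠ 0) ↔ r ≠ 0) := by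
  obtain ⟨r, hr⟩ := exists_smul_one (T.push_mem p (j := 0) (by omega) hw)
  have e : ∀ y, W.tr X (R.γ X w * W.pull p y) = r * W.tr B y := fun y => by
    rw [← W.tr_push_mul, ← R.γ_push, hr, R.γ_smul, map_one, smul_mul_assoc, one_mul, map_smul,
      smul_eq_mul]
  refine ⟨r, hr, ?_, fun h => ?_⟩
  · rintro ⟨y, hy⟩ rfl
    rw [e, Rat.cast_zero, zero_mul] at hy
    exact hy rfl
  · obtain ⟨z, hz, -⟩ := B.exists_closed_le B.gen
    refine ⟨W.cl B z, ?_⟩
    rw [e, W.tr_cl B z hz, mul_one]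
    exact Rat.cast_ne_zero.2 h

theorem hasCK_fib (R : CycleMap T W) (X : SmProj k) {ξ : W.H X} (hξ : W.IsAlg ξ)
    (hL : HardLefschetz (W.deg X) X.dim ξ) {m s : ℕ} (B : Fin m → SmProj k)
    (p : ∀ j, X.X ⟶ (B j).X) (hB : ∀ j, HasCK R (B j)) (b : Fin s → Fin m) (c c' : Fin s → ℕ)
    (η ζ : Fin s → T.A X) (hη : ∀ a, η a ∈ T.CH X (c a)) (hζ : ∀ a, ζ a ∈ T.CH X (c' a))
    (hc : ∀ a, c a + c' a + (B (b a)).dim = X.dim)
    (hdual : ∀ a a', b a = b a' → c a = c a' →
      ((∃ y, W.tr X (R.γ X (η a * ζ a') * W.pull (p (b a)) y) ≠ 0) ↔ a = a'))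
    (hcurve : ∀ a j, j < b a → ζ a ∈ OverC T (p j))
    (hswap : ∀ a, (∃ a', b a' = b a ∧ η a' = ζ a ∧ ζ a' = η a) ∨ ∀ a', b a' = b a →
      ∀ t, coheight t + (B (b a)).dim + c a + c a' = X.dim → OnCurve (B (b a)) t)
    (hH : ∀ i < X.dim, ∃ U ≤ W.deg X i, MotS W X U ∧ ∀ x ∈ W.deg X i, ∃ y ∈ U,
      ∃ t : ∀ a, W.H (B (b a)), (∀ a, Tr W _ (t a)) ∧
        x = y + ∑ a, R.γ X (η a) * W.pull (p (b a)) (t a)) : HasCK R X := by
  classical
  choose r hr hr' using fun a => exists_deg R (p (b a)) (T.mul_mem (hη a) (hζ a)) (hc a)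
  have hr0 : ∀ a, r a ≠ 0 := fun a => (hr' a).1 ((hdual a a rfl rfl).2 rfl)
  let key : Fin s → ℕ := fun a => b a * (X.dim + 1) + c a
  have same : ∀ j j', j = j' → ∀ w, T.push (pair (p j) (p j)) w ∈ Thru T _ _ →
      T.push (pair (p j) (p j')) w ∈ Thru T _ _ := by
    rintro j _ rfl w h
    exact h
  have tri : ∀ a a', a ≠ a' → key a ≤ key a' →
      T.push (pair (p (b a)) (p (b a'))) (η a * ζ a') ∈ Thru T _ _ := by
    intro a a' hne h
    have e1 := hc a
    have e2 := hc a'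
    rcases key_le (by omega) h with h1 | ⟨h1, h2⟩
    · exact over_fst _ _ (hcurve a' _ h1) _
    have h3 : b a = b a' := Fin.ext h1
    rw [← h3] at e2
    refine same _ _ h3 _ ?_
    have h4 : T.push (p (b a)) (η a * ζ a') = 0 := by
      rcases h2.lt_or_eq with h2 | h2
      · exact T.push_eq_zero _ (by omega) (T.mul_mem (hη a) (hζ a'))
      · obtain ⟨q, q1, q2⟩ := exists_deg R (p (b a)) (T.mul_mem (hη a) (hζ a')) (by omega)
        have q3 : q = 0 := not_not.1 fun h => hne ((hdual a a' h3 h2).1 (q2.2 h))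
        rw [q1, q3, zero_smul]
    rw [push_pair_self, h4, map_zero]
    exact zero_mem _
  refine hasCK_geo R X
    (ι := Fin s ⊕ {a // ¬ ∃ a', b a' = b a ∧ η a' = ζ a ∧ ζ a' = η a}) B p hB
    (Sum.elim b fun a => b a) (Sum.elim η fun a => ζ a) (Sum.elim ζ fun a => η a)
    (Sum.elim c fun a => c' a) (Sum.elim c' fun a => c a) (Sum.elim r fun a => r a)
    (Sum.elim (fun a => key a) fun a => -1 - key a) ?_ ?_ ?_ ?_ ?_ ?_ ?_ hξ hL ?_
  · rintro (a | a)
    exacts [hη a, hζ a]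
  · rintro (a | a)
    exacts [hζ a, hη a]
  · rintro (a | a)
    · exact hc a
    · exact (by rw [Nat.add_comm (c' a)]; exact hc a : c' a + c a + (B (b a)).dim = X.dim)
  · rintro (a | a)
    exacts [hr0 a, hr0 a]
  · rintro (a | a)
    · exact hr a
    · exact (congrArg (T.push (p (b a))) (mul_comm _ _)).trans (hr a)
  · rintro (a | a) (a' | a') hne hrk <;> simp only [Sum.elim_inl, Sum.elim_inr] at hrk
    · exact tri a a' (fun h => hne (by rw [h])) (by omega)
    · omega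
    · rcases lt_trichotomy (b a) (b a') with h | h | h
      · exact over_fst _ _ (hcurve a' _ h) _
      · have e1 := hc a
        have e2 := hc a'
        rw [← h] at e2
        refine same _ _ h _ (diag_thru _ (T.mul_mem (hζ a) (hζ a')) fun t ht =>
          (hswap a).resolve_left a.2 a' h.symm t ?_)
        obtain ⟨n, hn⟩ := ENat.ne_top_iff_exists.mp ((B (b a)).coheight_ne_top t)
        rw [← hn] at ht ⊢
        norm_cast at ht ⊢
        omega
      · exact thru_swap (over_fst _ _ (hcurve a _ h) _)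
    · exact thru_swap (tri a' a (fun h => hne (congrArg _ (Subtype.ext h.symm))) (by omega))
  · rintro (a | a)
    · by_cases h : ∃ a', b a' = b a ∧ η a' = ζ a ∧ ζ a' = η a
      · obtain ⟨a', h⟩ := h
        exact ⟨.inl a', h⟩
      · exact ⟨.inr ⟨a, h⟩, rfl, rfl, rfl⟩
    · exact ⟨.inl a, rfl, rfl, rfl⟩
  · intro i hi
    obtain ⟨U, a1, a2, a3⟩ := hH i hi
    refine ⟨U, a1, a2, fun x hx => ?_⟩
    obtain ⟨y, hy, t, ht, rfl⟩ := a3 x hx
    refine ⟨y, hy, ?_⟩
    rw [add_sub_cancel_left]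
    exact sum_mem fun a _ => AddSubmonoid.subset_closure ⟨.inl a, t a, ht a, rfl⟩

end Pool.Agent.P.MP_638e8a_ag.H67
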