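import Pool.Agent.P.MP_638e8a_ag_H67.Fib
import Pool.Agent.P.MP_638e8a_ag.ChFinal

/-!
The statement with cycles.
-/

open CategoryTheory AlgebraicGeometry

universe u v w

namespace Pool.Agent.P.MP_638e8a_ag.H67

open Pool.Agent.P.MP_90138e_ag Pool.Agent.P.MP_638e8a_ag.Cyc
open Pool.Agent.P.MP_90138e_ag.WeilCohomology (fstH sndH)

variable {k : Type u} [Field k] {T : ChowTheory k} {S X Y Z : SmProj k}

theorem clZ_of_isPull {p : S.X ⟶ X.X} (hp : IsProj p) {α : Zc X} {α' : Zc S}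
    (h : IsPull p.left α α') : clZ T S α' = T.pull p (clZ T X α) := by
  obtain ⟨s, hs, rfl⟩ := h
  induction α using Finsupp.induction_linear with
  | zero => simp
  | add a b ha hb => simp only [Finsupp.mapDomain_add, map_add, ha, hb]
  | single z q =>
    rw [Finsupp.mapDomain_single, clZ_single, clZ_single, map_smul,
      ← T.pull_cl_of_isProj hp fun t ht => (hs z).2 t (ht.trans (hs z).1), (hs z).1]

theorem clZ_diagCycle : clZ T _ (diagCycle Y) = T.diag Y := by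
  rw [T.diag_eq, ← T.cl_gen, ← one_smul ℚ (T.cl Y Y.gen), ← clZ_single, ← clZ_pushZ, pushZ_single]
  have := isClosedImmersion_of_section (pair (𝟙 Y.X) (𝟙 Y.X)) (fstH Y Y) (pair_fst _ _)
  rw [residueDegree_of_closedImmersion, Nat.cast_one, mul_one]
  rfl

variable [IsAlgClosed k]

theorem clZ_of_isMul (hT : IsStd T) {α β γ : Zc X} (h : IsMul X α β γ) :
    clZ T X γ = clZ T X α * clZ T X β := by
  obtain ⟨⟨γ', h0⟩, h5⟩ := h
  have h6 := h5 γ' h0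
  obtain ⟨α', β', h1, h2, h3⟩ := h0
  obtain ⟨h4, rfl⟩ := (isInterCycle_iff _ _ _).1 h3
  rw [← clZ_eq_iff (T := T)] at h1 h2 h6
  rw [h6, hT _ _ _ _ _ h4, T.pull_id, h1, h2]

theorem clZ_of_isComp (hT : IsStd T) {β : Zc (Y.prod Z)} {α : Zc (X.prod Y)} {γ : Zc (X.prod Z)}
    (h : IsComp β α γ) : clZ T _ γ = T.comp (clZ T _ β) (clZ T _ α) := by
  have h1 : IsProj (pair (fstH (X.prod Z) Y ≫ fstH X Z) (sndH (X.prod Z) Y)) :=
    (isProj_fst X Z).prod Y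
  have h2 : IsProj (pair (sndH (X.prod Z) Y) (fstH (X.prod Z) Y ≫ sndH X Z)) := by
    have h3 := ((isProj_snd X Z).prod Y).comp (q := pair (sndH Z Y) (fstH Z Y))
      ⟨SmProj.pt k, ⟨pair (pair (sndH Z Y) (fstH Z Y)) (toPt _),
        fstH _ _ ≫ pair (sndH Y Z) (fstH Y Z), ?_, ?_⟩, pair_fst _ _⟩
    · rwa [comp_pair, pair_snd, pair_fst] at h3
    · rw [pair_fst_assoc, comp_pair, pair_snd, pair_fst, pair_fst_snd]
    · refine prod_ext ?_ (toPt_ext _ _)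
      rw [Category.assoc, Category.assoc, pair_fst, comp_pair, pair_snd, pair_fst, pair_fst_snd,
        Category.comp_id, Category.id_comp]
  obtain ⟨α', β', γ', a1, b1, c1, d1⟩ := h
  refine ((clZ_eq_iff (T := T)).2 d1).trans ((clZ_pushZ (fstH (X.prod Z) Y) γ').trans ?_)
  rw [clZ_of_isMul hT c1, clZ_of_isPull h1 a1, clZ_of_isPull h2 b1]
  rfl

omit [IsAlgClosed k] in
theorem clZ_mem {c : Zc X} {j : ℕ} (h : HasCodim c j) : clZ T X c ∈ T.CH X j :=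
  (Finsupp.mem_span_image_iff_linearCombination ℚ).2 ⟨c, fun _ ht => h _ ht, rfl⟩

variable {K : Type v} [Field K] [CharZero K] {D : CohData.{u, v, w} k K} {hD : IsWeil D}
  {R : CycleMap T hD.toWeil}

theorem hasCK_iff (hT : IsStd T) (hR : ∀ X c, R.γ X (clZ T X c) = clsHom D X c) :
    Cyc.HasCK D Y ↔ MP_638e8a_ag.HasCK R Y := by
  constructor
  · rintro ⟨π, h1, h2, h3, h4⟩
    refine ⟨fun n => clZ T _ (π n), fun n => clZ_mem (h1 n), fun m n => ?_, ?_, fun n => ?_⟩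
    · rw [← clZ_of_isComp hT (h2 m n), apply_ite (clZ T _), map_zero]
    · rw [← map_sum, (clZ_eq_iff (T := T)).2 h3, clZ_diagCycle]
    · obtain ⟨P, h5, h6⟩ := h4 n
      refine ⟨P, ?_, h6⟩
      rw [hR]
      exact h5
  · rintro ⟨π, h1, h2, h3, h4⟩
    choose c hc hc' using fun n => exists_rep (h1 n)
    refine ⟨c, hc, fun m n => isComp_of hT ?_, clZ_eq_iff (T := T).1 ?_, fun n => ?_⟩
    · rw [hc', hc', h2]
      split_ifs
      · exact hc' n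
      · exact map_zero _
    · rw [map_sum, Finset.sum_congr rfl fun n _ => hc' n, h3, clZ_diagCycle]
    · obtain ⟨P, h5, h6⟩ := h4 n
      rw [← hc', hR] at h5
      exact ⟨P, h5, h6⟩

theorem isCorr_of_weil {P : D.H X →ₗ[K] D.H Y} (h : hD.toWeil.IsCorr P) : IsCorr D P := by
  obtain ⟨j, _, ⟨c, h1, rfl⟩, h2⟩ := h
  exact ⟨j, c, h1, h2⟩

theorem curveType_of_weil (h : hD.toWeil.CurveType X) : CurveType D X := by
  induction h with
  | curve X h => exact .curve X h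
  | prod X Y _ _ h1 h2 => exact .prod X Y h1 h2
  | image X Y f hf _ h => exact .image X Y f hf h
  | summand X n Y S T _ h1 h2 h3 h =>
    exact .summand X n Y S T h (fun j => isCorr_of_weil (h1 j)) (fun j => isCorr_of_weil (h2 j)) h3

theorem Transc.tr (hR : ∀ X c, R.γ X (clZ T X c) = clsHom D X c) {t : D.H Y}
    (h : Transc D Y t) : Tr hD.toWeil Y t := by
  intro P g hP hg
  obtain ⟨β, rfl⟩ := R.exists_op hg
  clear hg
  induction β using T.hom_ind with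
  | h0 => rw [R.op_zero, LinearMap.zero_apply]
  | hadd a b ha hb => rw [R.op_add, LinearMap.add_apply, ha, hb, add_zero]
  | h j β hβ =>
    obtain ⟨c, hc, rfl⟩ := exists_rep hβ
    refine h P _ (curveType_of_weil hP) ⟨j, c, hc, ?_⟩
    have h1 := R.induces_op (clZ T _ c)
    rwa [hR] at h1

theorem MotSub.motS {U : Submodule K (D.H Y)} (h : MotSub D Y U) : MotS hD.toWeil Y U := by
  obtain ⟨X, a, e, u, h1, ⟨c, h2, h3⟩, h4, h5⟩ := h
  exact motS_of (h1.toWeil hD) ⟨c, h2, rfl⟩ h3 (h4.toWeil hD) h5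

theorem clZ_mem_thru (hT : IsStd T) {c : Zc (X.prod Y)} (h : c ∈ ViaCurves X Y) :
    clZ T _ c ∈ Thru T X Y := by
  have h1 : ViaCurves X Y ≤ (Thru T X Y).comap (clZ T _) := by
    refine Submodule.span_le.2 ?_
    rintro γ ⟨C, g, w, hC, h⟩
    exact Submodule.subset_span ⟨C, _, _, hC, (clZ_of_isComp hT h).symm⟩
  exact h1 h

theorem hasCK_final (hD : IsWeil D) (X : SmProj k) {ξ : D.H X} (hξ : LefClass D X ξ) {m s : ℕ}
    (B : Fin m → SmProj k) (p : ∀ j, X.X ⟶ (B j).X) (hB : ∀ j, Cyc.HasCK D (B j))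
    (b : Fin s → Fin m) (η ζ : Fin s → X.X.left →₀ ℚ)
    (hc : ∀ a, ∃ c c', HasCodim (η a) c ∧ HasCodim (ζ a) c' ∧ c + c' + (B (b a)).dim = X.dim)
    (hdeg : ∀ a, ∃ y, D.tr X (cls (K := K) (D.cl X) (η a) * cls (K := K) (D.cl X) (ζ a) *
      D.pull (p (b a)) y) ≠ 0)
    (htri : ∀ a a', a < a' → ∃ γ, IsMul X (η a) (ζ a') γ ∧
      pushZ (pair (p (b a)) (p (b a'))).left γ ∈ ViaCurves (B (b a)) (B (b a')))
    (hswap : ∀ a, ∃ a', b a' = b a ∧ η a' = ζ a ∧ ζ a' = η a)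
    (hH : ∀ i < X.dim, ∃ U ≤ D.deg X i, MotSub D X U ∧ ∀ x ∈ D.deg X i, ∃ y ∈ U,
      ∃ t : ∀ a, D.H (B (b a)), (∀ a, Transc D (B (b a)) (t a)) ∧
        x = y + ∑ a, cls (K := K) (D.cl X) (η a) * D.pull (p (b a)) (t a)) :
    Cyc.HasCK D X := by
  obtain ⟨T, hT⟩ := exists_chow k
  obtain ⟨R, hR⟩ := hD.exists_cycleMap hT
  obtain ⟨⟨c₀, -, e⟩, hL⟩ := hξ
  obtain rfl : ξ = R.γ X (clZ T X c₀) := e.trans (hR X c₀).symm
  choose c c' h1 h2 h3 using hc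
  choose r hr hr' using fun a =>
    exists_deg R (p (b a)) (T.mul_mem (clZ_mem (h1 a)) (clZ_mem (h2 a))) (h3 a)
  refine (hasCK_iff hT hR).2 (hasCK_geo R X B p (fun j => (hasCK_iff hT hR).1 (hB j)) b
    (fun a => clZ T X (η a)) (fun a => clZ T X (ζ a)) c c' r (fun a => (a : ℕ))
    (fun a => clZ_mem (h1 a)) (fun a => clZ_mem (h2 a)) h3 (fun a => (hr' a).1 ?_) hr
    (fun a a' h h' => ?_) (fun a => ?_) (R.isAlg_γ _) hL fun i hi => ?_)
  · rw [map_mul, hR, hR]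
    exact hdeg a
  · obtain ⟨γ, g1, g2⟩ := htri a a' (by omega)
    rw [← clZ_of_isMul hT g1, ← clZ_pushZ]
    exact clZ_mem_thru hT g2
  · obtain ⟨a', g1, g2, g3⟩ := hswap a
    exact ⟨a', g1, by rw [g2], by rw [g3]⟩
  · obtain ⟨U, a1, a2, a3⟩ := hH i hi
    refine ⟨U, a1, a2.motS, fun x hx => ?_⟩
    obtain ⟨y, hy, t, ht, h⟩ := a3 x hx
    refine ⟨y, hy, (sub_eq_iff_eq_add'.2 h).symm ▸ ?_⟩
    refine sum_mem fun a _ => AddSubmonoid.subset_closure ⟨a, t a, (ht a).tr hR, ?_⟩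
    rw [hR]
    rfl

/-- The geometric form: no hypothesis on Chow groups of `X`. -/
theorem hasCK_geometric (hD : IsWeil D) (X : SmProj k) {ξ : D.H X} (hξ : LefClass D X ξ)
    {m s : ℕ} (B : Fin m → SmProj k) (p : ∀ j, X.X ⟶ (B j).X) (hB : ∀ j, Cyc.HasCK D (B j))
    (b : Fin s → Fin m) (c c' : Fin s → ℕ) (η ζ : Fin s → X.X.left →₀ ℚ)
    (hη : ∀ a, HasCodim (η a) (c a)) (hζ : ∀ a, HasCodim (ζ a) (c' a))
    (hc : ∀ a, c a + c' a + (B (b a)).dim = X.dim)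
    (hdual : ∀ a a', b a = b a' → c a = c a' →
      ((∃ y, D.tr X (cls (K := K) (D.cl X) (η a) * cls (K := K) (D.cl X) (ζ a') *
        D.pull (p (b a)) y) ≠ 0) ↔ a = a'))
    (hcurve : ∀ a j, j < b a → ∀ z ∈ (ζ a).support, OnCurve (B j) ((p j).left z))
    (hswap : ∀ a, (∃ a', b a' = b a ∧ η a' = ζ a ∧ ζ a' = η a) ∨ ∀ a', b a' = b a →
      ∀ t, Order.coheight t + (B (b a)).dim + c a + c a' = X.dim → OnCurve (B (b a)) t)
    (hH : ∀ i < X.dim, ∃ U ≤ D.deg X i, MotSub D X U ∧ ∀ x ∈ D.deg X i, ∃ y ∈ U,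
      ∃ t : ∀ a, D.H (B (b a)), (∀ a, Transc D (B (b a)) (t a)) ∧
        x = y + ∑ a, cls (K := K) (D.cl X) (η a) * D.pull (p (b a)) (t a)) :
    Cyc.HasCK D X := by
  obtain ⟨T, hT⟩ := exists_chow k
  obtain ⟨R, hR⟩ := hD.exists_cycleMap hT
  obtain ⟨⟨c₀, -, e⟩, hL⟩ := hξ
  obtain rfl : ξ = R.γ X (clZ T X c₀) := e.trans (hR X c₀).symm
  refine (hasCK_iff hT hR).2 (hasCK_fib R X (R.isAlg_γ _) hL B p
    (fun j => (hasCK_iff hT hR).1 (hB j)) b c c' (fun a => clZ T X (η a)) (fun a => clZ T X (ζ a))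
    (fun a => clZ_mem (hη a)) (fun a => clZ_mem (hζ a)) hc (fun a a' h h' => ?_)
    (fun a j h => ?_) (fun a => (hswap a).imp_left ?_) fun i hi => ?_)
  · rw [map_mul, hR, hR]
    exact hdual a a' h h'
  · exact (Finsupp.mem_span_image_iff_linearCombination ℚ).2 ⟨ζ a, hcurve a j h, rfl⟩
  · rintro ⟨a', g1, g2, g3⟩
    exact ⟨a', g1, by rw [g2], by rw [g3]⟩
  · obtain ⟨U, a1, a2, a3⟩ := hH i hi
    refine ⟨U, a1, a2.motS, fun x hx => ?_⟩
    obtain ⟨y, hy, t, ht, h⟩ := a3 x hx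
    refine ⟨y, hy, t, fun a => (ht a).tr hR, ?_⟩
    simp only [hR]
    exact h

end Pool.Agent.P.MP_638e8a_ag.H67
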