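import Pool.Agent.P.MP_638e8a_ag_H67.Tri
import Pool.Agent.P.MP_638e8a_ag_H67.Fac

/-!
Idempotents attached to morphisms onto varieties with a Chow-Kuenneth decomposition.
-/

open CategoryTheory AlgebraicGeometry MonoidalCategory CartesianMonoidalCategory Order

universe u v w

namespace Pool.Agent.P.MP_638e8a_ag.H67

open Pool.Agent.P.MP_90138e_ag
open Pool.Agent.P.MP_90138e_ag.WeilCohomology (fstH sndH)

theorem exists_list {ι : Type*} [Fintype ι] (rk : ι → ℤ) :
    ∃ l : List ι, l.Pairwise (fun a b => rk a ≤ rk b ∧ a ≠ b) ∧ ∀ a, a ∈ l := by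
  refine ⟨Finset.univ.toList.mergeSort fun a b => decide (rk a ≤ rk b), List.Pairwise.and ?_ ?_,
    fun a => by simp⟩
  · refine (List.pairwise_mergeSort (le := fun a b => decide (rk a ≤ rk b)) (fun a b c h h' => ?_)
      (fun a b => ?_) _).imp fun h => of_decide_eq_true h
    · exact decide_eq_true ((of_decide_eq_true h).trans (of_decide_eq_true h'))
    · simpa using le_total (rk a) (rk b)
  · exact (List.mergeSort_perm _ _).nodup_iff.2 (Finset.nodup_toList _)

variable {k : Type u} [Field k] {T : ChowTheory k} {X Y B B' : SmProj k}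

theorem thru_tp {x : T.A (X.prod Y)} (h : x ∈ Thru T X Y) : T.tp x ∈ Thru T Y X := by
  induction h using Submodule.span_induction with
  | mem y hy =>
    obtain ⟨C, g, w, hC, rfl⟩ := hy
    exact Submodule.subset_span ⟨C, _, _, hC, (T.tp_comp w g).symm⟩
  | zero =>
    have : T.tp (0 : T.A (X.prod Y)) = 0 := map_zero _
    rw [this]
    exact zero_mem _
  | add y z _ _ hy hz => rw [tp_add]; exact add_mem hy hz
  | smul q y _ hy => rw [tp_smul]; exact Submodule.smul_mem _ _ hy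

theorem thru_left {x : T.A (X.prod Y)} (h : x ∈ Thru T X Y) (β : T.A (Y.prod B)) :
    T.comp β x ∈ Thru T X B := by
  induction h using Submodule.span_induction with
  | mem y hy =>
    obtain ⟨C, g, w, hC, rfl⟩ := hy
    exact Submodule.subset_span ⟨C, _, _, hC, T.comp_assoc β w g⟩
  | zero => rw [T.comp_zero]; exact zero_mem _
  | add y z _ _ hy hz => rw [T.comp_add]; exact add_mem hy hz
  | smul q y _ hy => rw [comp_smul]; exact Submodule.smul_mem _ _ hy

/-- The correspondence `t ↦ η · p^* t`. -/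
noncomputable def gU (p : X.X ⟶ B.X) (η : T.A X) : T.A (B.prod X) := T.push (pair p (𝟙 X.X)) η

/-- The correspondence `x ↦ p_* (ζ · x)`. -/
noncomputable def gV (p : X.X ⟶ B.X) (ζ : T.A X) : T.A (X.prod B) := T.push (pair (𝟙 X.X) p) ζ

theorem gV_gU (p : X.X ⟶ B.X) (p' : X.X ⟶ B'.X) (η ζ : T.A X) :
    T.comp (gV p' ζ) (gU p η) = T.push (pair p p') (η * ζ) := comp_graph_graph p p' η ζ

theorem push_pair_self (p : X.X ⟶ B.X) (w : T.A X) :
    T.push (pair p p) w = T.push (pair (𝟙 B.X) (𝟙 B.X)) (T.push p w) := by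
  rw [← T.push_comp, comp_pair, Category.comp_id]

/-- The composite of `gV`, `s` and `gU`, divided by `r`. -/
noncomputable def piece (p : X.X ⟶ B.X) (η ζ : T.A X) (r : ℚ) (s : T.A (B.prod B)) : T.End X :=
  ChowTheory.End.mk (r⁻¹ • T.comp (gU p η) (T.comp s (gV p ζ)))

theorem piece_mul (p : X.X ⟶ B.X) (p' : X.X ⟶ B'.X) (η ζ η' ζ' : T.A X) (r r' : ℚ)
    (s : T.A (B.prod B)) (s' : T.A (B'.prod B')) :
    (piece p' η' ζ' r' s' * piece p η ζ r s).val = (r⁻¹ * r'⁻¹) • T.comp (gU p' η')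
      (T.comp (T.comp s' (T.comp (T.push (pair p p') (η * ζ')) s)) (gV p ζ)) := by
  change T.comp (r'⁻¹ • _) (r⁻¹ • _) = _
  rw [comp_smul, smul_comp, smul_smul, ← gV_gU]
  simp only [T.comp_assoc]

theorem tE_piece (p : X.X ⟶ B.X) (η ζ : T.A X) (r : ℚ) (s : T.A (B.prod B)) :
    tE (piece p η ζ r s) = piece p ζ η r (T.tp s) := by
  change T.tp (r⁻¹ • _) = r⁻¹ • _
  rw [tp_smul, T.tp_comp, T.tp_comp, gU, gV, tp_push, tp_push, T.comp_assoc]
  rfl

variable [IsAlgClosed k] {K : Type v} [Field K] [CharZero K] {W : WeilCohomology.{u, v, w} k K}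
  {R : CycleMap T W}

theorem op_gU (p : X.X ⟶ B.X) (η : T.A X) (t : W.H B) :
    R.op (gU p η) t = R.γ X η * W.pull p t := by
  rw [R.op_apply, gU, R.γ_push, ← (WeilCohomology.IsAlg.push _ (R.isAlg_γ η)).comm,
    ← W.push_mul_pull, ← W.pull_comp, pair_fst, ← LinearMap.comp_apply, ← W.push_comp,
    pair_snd, W.push_id]
  rfl

theorem ρ_piece (p : X.X ⟶ B.X) (η ζ : T.A X) (r : ℚ) (s : T.A (B.prod B)) (x : W.H X) :
    R.ρ X (piece p η ζ r s) x =
      ((r⁻¹ : ℚ) : K) • R.op (gU p η) (R.op s (R.op (gV p ζ) x)) := by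
  change R.op (r⁻¹ • _) x = _
  rw [op_smul, R.op_comp, R.op_comp]
  rfl

/-- A Chow-Kuenneth decomposition indexed by all natural numbers. -/
structure CKn (R : CycleMap T W) (B : SmProj k) (σ : ℕ → T.A (B.prod B)) : Prop where
  mem : ∀ i, σ i ∈ T.CH (B.prod B) B.dim
  orth : ∀ i j, T.comp (σ i) (σ j) = if i = j then σ i else 0
  op : ∀ i, R.op (σ i) = W.proj B i

theorem proj_eq_zero {i : ℕ} (hi : 2 * B.dim < i) : W.proj B i = 0 := by
  ext x
  have h := W.proj_mem B i x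
  rwa [W.deg_eq_bot B i hi, Submodule.mem_bot] at h

theorem exists_CKn (h : HasCK R B) : ∃ σ, CKn R B σ := by
  obtain ⟨π, h1, h2, -, h4⟩ := h
  refine ⟨fun i => if h : i < 2 * B.dim + 1 then π ⟨i, h⟩ else 0, fun i => ?_, fun i j => ?_,
    fun i => ?_⟩
  · split_ifs
    · exact h1 _
    · exact zero_mem _
  · by_cases hi : i < 2 * B.dim + 1
    · by_cases hj : j < 2 * B.dim + 1
      · rw [dif_pos hi, dif_pos hj, h2]
        by_cases hij : i = j
        · subst hij
          rw [if_pos rfl, if_pos rfl]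
        · rw [if_neg hij, if_neg fun h => hij (congrArg Fin.val h)]
      · rw [dif_neg hj, T.comp_zero, if_neg (by omega)]
    · rw [dif_neg hi, T.zero_comp, ite_self]
  · split_ifs with hi
    · obtain ⟨P, h5, h6⟩ := h4 ⟨i, hi⟩
      rw [R.op_eq_of_induces h5]
      refine W.hom_ext fun m x hx => ?_
      rw [h6 m x hx]
      split_ifs with hm
      · have hm' : m = i := hm
        rw [← hm', W.proj_of_mem hx]
      · exact (W.proj_of_mem_ne hx hm).symm
    · rw [R.op_zero, proj_eq_zero (by omega)]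

theorem CKn.flip {σ : ℕ → T.A (B.prod B)} (h : CKn R B σ) :
    CKn R B fun i => if i ≤ 2 * B.dim then T.tp (σ (2 * B.dim - i)) else 0 := by
  refine ⟨fun i => ?_, fun i j => ?_, fun i => ?_⟩
  · split_ifs
    · exact tp_mem (h.mem _)
    · exact zero_mem _
  · by_cases hi : i ≤ 2 * B.dim
    · by_cases hj : j ≤ 2 * B.dim
      · rw [if_pos hi, if_pos hj, ← T.tp_comp, h.orth]
        by_cases hij : i = j
        · subst hij
          rw [if_pos rfl, if_pos rfl]
        · rw [if_neg hij, if_neg (by omega)]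
          exact map_zero _
      · rw [if_neg hj, T.comp_zero, if_neg (by omega)]
    · rw [if_neg hi, T.zero_comp, ite_self]
  · split_ifs with hi
    · rw [op_tp, h.op, W.tpose_proj i _ (by omega)]
    · rw [R.op_zero, proj_eq_zero (by omega)]

theorem hasCK_geo (R : CycleMap T W) (X : SmProj k) {J ι : Type*} [Fintype ι] (B : J → SmProj k)
    (p : ∀ j, X.X ⟶ (B j).X) (hB : ∀ j, HasCK R (B j)) (b : ι → J) (η ζ : ι → T.A X)
    (c c' : ι → ℕ) (r : ι → ℚ) (rk : ι → ℤ) (hη : ∀ a, η a ∈ T.CH X (c a))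
    (hζ : ∀ a, ζ a ∈ T.CH X (c' a)) (hc : ∀ a, c a + c' a + (B (b a)).dim = X.dim)
    (hr : ∀ a, r a ≠ 0) (hp : ∀ a, T.push (p (b a)) (η a * ζ a) = r a • 1)
    (htri : ∀ a a', a ≠ a' → rk a ≤ rk a' →
      T.push (pair (p (b a)) (p (b a'))) (η a * ζ a') ∈ Thru T _ _)
    (hsym : ∀ a, ∃ a', b a' = b a ∧ η a' = ζ a ∧ ζ a' = η a) {ξ : W.H X}
    (hξ : W.IsAlg ξ) (hL : HardLefschetz (W.deg X) X.dim ξ)
    (hH : ∀ i < X.dim, ∃ U ≤ W.deg X i, MotS W X U ∧ ∀ x ∈ W.deg X i, ∃ y ∈ U,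
      x - y ∈ AddSubmonoid.closure
        {w | ∃ a t, Tr W (B (b a)) t ∧ w = R.γ X (η a) * W.pull (p (b a)) t}) :
    HasCK R X := by
  classical
  choose σ hσ using fun j => exists_CKn (hB j)
  obtain ⟨l, hl, hall⟩ := exists_list fun a : ι × Fin (2 * X.dim + 1) => rk a.1
  let F : (∀ j, ℕ → T.A ((B j).prod (B j))) → ι × Fin (2 * X.dim + 1) → T.End X := fun s a =>
    piece (p (b a.1)) (η a.1) (ζ a.1) (r a.1) (s (b a.1) a.2)
  let dg : ι × Fin (2 * X.dim + 1) → Fin (2 * X.dim + 1) := fun a =>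
    ⟨min (a.2 + 2 * c a.1) (2 * X.dim), by omega⟩
  have hU : ∀ a, gU (p (b a)) (η a) ∈ T.CH _ (c a + (B (b a)).dim) := fun a =>
    T.push_mem _ (by change _ = _ + (_ + _); omega) (hη a)
  have hV : ∀ a, gV (p (b a)) (ζ a) ∈ T.CH _ (c' a + (B (b a)).dim) := fun a =>
    T.push_mem _ (by change _ = _ + (_ + _); omega) (hζ a)
  have hd : ∀ a, T.push (pair (p (b a)) (p (b a))) (η a * ζ a) = r a • T.diag _ := fun a => by
    rw [push_pair_self, hp, map_smul, T.diag_eq]
  have hdg : ∀ s, (∀ j, CKn R (B j) (s j)) → ∀ a i, dg a ≠ i →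
      FDOp R (R.ρ X (F s a) ∘ₗ W.proj X i) := by
    intro s hs a i hi
    have h0 : R.ρ X (F s a) ∘ₗ W.proj X i = 0 := by
      ext x
      have h1 := hc a.1
      have h2 := i.2
      have h3 : (a.2 : ℕ) + 2 * c a.1 ≠ i := fun h => hi (Fin.ext (by simp only [dg]; omega))
      rw [LinearMap.comp_apply, ρ_piece, (hs _).op,
        hom_op (hV a.1) i a.2 (by omega) _ (W.proj_mem X i x), map_zero, smul_zero]
      rfl
    rw [h0]
    exact FDOp.zero
  have hkill : ∀ s, (∀ j, CKn R (B j) (s j)) → ∀ a t, Tr W (B (b a)) t →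
      R.ρ X (PP (F s) l) (R.γ X (η a) * W.pull (p (b a)) t) = 0 := by
    intro s hs a t ht
    rw [← op_gU, ← W.sum_proj _ t, map_sum, map_sum]
    refine Finset.sum_eq_zero fun i hi => ?_
    have h1 := hc a
    have h2 : i < 2 * X.dim + 1 := by
      have := Finset.mem_range.1 hi
      omega
    have h3 : Tr W _ (W.proj _ i t) := by
      rw [← (hs _).op]
      exact ht.map (R.algOp_op _)
    have h4 : R.op (gV (p (b a)) (ζ a)) (R.op (gU (p (b a)) (η a)) (W.proj _ i t)) =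
        (r a : K) • W.proj _ i t := by
      rw [← LinearMap.comp_apply, ← R.op_comp, gV_gU, hd, op_smul, R.op_diag]
      rfl
    rw [map_PP]
    refine PP_kill (fun a => R.ρ X (F s a)) hl (hall (a, ⟨i, h2⟩)) ?_ ?_
    · change R.ρ X (piece _ _ _ _ _) _ = _
      rw [ρ_piece, h4, map_smul, (hs _).op, W.proj_of_mem (W.proj_mem _ i t), map_smul, smul_smul,
        ← Rat.cast_mul, inv_mul_cancel₀ (hr a), Rat.cast_one, one_smul]
    · rintro ⟨a', i'⟩ ⟨h5, h6⟩
      change R.ρ X (piece _ _ _ _ _) _ = _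
      rw [ρ_piece]
      by_cases h : a = a'
      · subst h
        rw [h4, map_smul, (hs _).op, W.proj_of_mem_ne (W.proj_mem _ i t)
          fun h => h6 (Prod.ext rfl (Fin.ext h)), smul_zero, map_zero, smul_zero]
      · rw [← LinearMap.comp_apply (R.op (gV _ _)), ← R.op_comp, gV_gU,
          op_thru R (htri a a' h h5) h3, map_zero, map_zero, smul_zero]
  have hlow : ∀ s, (∀ j, CKn R (B j) (s j)) → ∀ i < X.dim,
      FDOp R (R.ρ X (PP (F s) l) ∘ₗ W.proj X i) := by
    intro s hs i hi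
    obtain ⟨U, hU1, hU2, hU3⟩ := hH i hi
    have key : ∀ w ∈ AddSubmonoid.closure
        {w | ∃ a t, Tr W (B (b a)) t ∧ w = R.γ X (η a) * W.pull (p (b a)) t},
        Tr W X w ∧ R.ρ X (PP (F s) l) w = 0 := by
      intro w hw
      induction hw using AddSubmonoid.closure_induction with
      | mem w hw =>
        obtain ⟨a, t, ht, rfl⟩ := hw
        refine ⟨?_, hkill s hs a t ht⟩
        rw [← op_gU]
        exact ht.map (R.algOp_op _)
      | zero => exact ⟨fun _ _ _ _ => map_zero _, map_zero _⟩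
      | add y z _ _ hy hz => exact ⟨hy.1.add hz.1, by rw [map_add, hy.2, hz.2, add_zero]⟩
    obtain ⟨φ, φ1, φ2, φ3, φ4⟩ := exists_phi R hξ hL hi.le hU1 hU2 fun x hx => by
      obtain ⟨y, hy, h⟩ := hU3 x hx
      exact ⟨y, hy, (key _ h).1⟩
    have e : R.ρ X (PP (F s) l) ∘ₗ W.proj X i = R.ρ X (PP (F s) l) ∘ₗ φ := by
      refine W.hom_ext fun m x hx => ?_
      rw [LinearMap.comp_apply, LinearMap.comp_apply]
      by_cases hm : m = i
      · subst hm
        obtain ⟨y, hy, h⟩ := hU3 x hx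
        obtain ⟨h1, h2⟩ := key _ h
        have h3 := φ4 _ h1
        rw [map_sub, sub_eq_zero] at h2 h3
        rw [W.proj_of_mem hx, h2, h3, φ2 y hy]
      · rw [W.proj_of_mem_ne hx hm, φ3 m hm x hx]
    rw [e]
    exact fdOp_left φ1 (algOp_ρ _)
  let σ' : ∀ j, ℕ → T.A ((B j).prod (B j)) := fun j i =>
    if i ≤ 2 * (B j).dim then T.tp (σ j (2 * (B j).dim - i)) else 0
  have hσ' : ∀ j, CKn R (B j) (σ' j) := fun j => (hσ j).flip
  have e1 : ∀ a, F σ a ∈ degZero T X := fun a => by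
    have h1 := hc a.1
    refine mem_degZero.2 (Submodule.smul_mem _ _ ?_)
    exact T.comp_mem (by omega) (hU a.1)
      (T.comp_mem (n := c' a.1 + (B (b a.1)).dim) rfl ((hσ _).mem a.2) (hV a.1))
  have e2 : ∀ a, F σ a * F σ a = F σ a := fun a => by
    change (piece _ _ _ _ _ * piece _ _ _ _ _).val = _
    rw [piece_mul, hd, smul_comp, comp_smul, smul_comp, comp_smul, T.diag_comp, (hσ _).orth,
      if_pos rfl, smul_smul, mul_assoc, inv_mul_cancel₀ (hr a.1), mul_one]
    rfl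
  have e3 : ∀ a a', rk a.1 ≤ rk a'.1 ∧ a ≠ a' → FD R (F σ a' * F σ a).val := by
    rintro ⟨a, i⟩ ⟨a', i'⟩ ⟨h5, h6⟩
    rw [piece_mul]
    refine (FD.comp_left (FD.comp_right ?_ _) _).smul _
    by_cases h : a = a'
    · subst h
      rw [hd, smul_comp, comp_smul, T.diag_comp, (hσ _).orth,
        if_neg fun h => h6 (Prod.ext rfl (Fin.ext h.symm)), smul_zero]
      exact FD.zero
    · exact ((fd_of_thru R (htri a a' h h5)).comp_right _).comp_left _
  have e4 : ∀ a, tE (F σ' a) = 0 ∨ ∃ a', tE (F σ' a) = F σ a' := fun a => by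
    obtain ⟨a', h1, h2, h3⟩ := hsym a.1
    have h4 : r a' = r a.1 := by
      have h6 := hp a'
      have := R.nontrivial (B (b a.1))
      rw [h1, h2, h3, mul_comm (ζ a.1), hp] at h6
      exact (smul_left_injective ℚ one_ne_zero h6).symm
    have h5 := hc a.1
    rw [tE_piece]
    by_cases h : (a.2 : ℕ) ≤ 2 * (B (b a.1)).dim
    · refine .inr ⟨(a', ⟨2 * (B (b a.1)).dim - a.2, by omega⟩), ?_⟩
      simp only [F, σ', if_pos h, T.tp_tp]
      rw [h1, h2, h3, h4]
    · refine .inl ?_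
      have : T.tp (0 : T.A ((B (b a.1)).prod (B (b a.1)))) = 0 := map_zero _
      simp only [σ', if_neg h, this, piece]
      rw [T.zero_comp, T.comp_zero, smul_zero]
      rfl
  exact hasCK_tri R X hl hall (F σ) (F σ') dg e1 e2 e3 (hdg σ hσ) (hdg σ' hσ') e4 (hlow σ hσ)
    (hlow σ' hσ')

end Pool.Agent.P.MP_638e8a_ag.H67
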