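import Pool.Agent.P.MP_638e8a_ag.Final

/-!
The ideal of correspondences that are sums of an evenly and an oddly finite-dimensional one, and
lifting of Kuenneth projectors that are idempotent modulo this ideal.
-/

open CategoryTheory AlgebraicGeometry MonoidalCategory CartesianMonoidalCategory Order

universe u v w

namespace Pool.Agent.P.MP_638e8a_ag.H67

open Pool.Agent.P.MP_90138e_ag
open Pool.Agent.P.MP_90138e_ag.WeilCohomology (fstH sndH)

variable {k : Type u} [Field k] [IsAlgClosed k] {K : Type v} [Field K] [CharZero K]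
  {T : ChowTheory k} {W : WeilCohomology.{u, v, w} k K} {X X' Y Y' Z : SmProj k}

/-! ### Transposition -/

theorem tpose_eq {P : W.H X →ₗ[K] W.H Y} {γ : W.H (X.prod Y)} (hγ : W.IsAlg γ)
    (hind : W.Induces γ P) :
    W.tpose P = W.push (X := X.prod Y) (fst X.X Y.X) ∘ₗ LinearMap.mulLeft K γ ∘ₗ
      (W.p2 X Y).toLinearMap := by
  refine W.hom_ext fun m y hy => W.eq_of_trL fun x => ?_
  simp only [LinearMap.comp_apply, LinearMap.mulLeft_apply, AlgHom.toLinearMap_apply,
    W.tr_tpose_mul, W.tr_push_mul]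
  rw [← W.sum_proj X x]
  simp only [map_sum, Finset.mul_sum]
  refine Finset.sum_congr rfl fun m' _ => ?_
  have hx := W.proj_mem X m' x
  set x' := W.proj X m' x
  have h1 : W.p2 X Y y * W.p1 X Y x' = (-1 : K) ^ (m * m') • (W.p1 X Y x' * W.p2 X Y y) :=
    W.mul_comm _ m m' _ (W.pull_deg _ m y hy) _ (W.pull_deg _ m' x' hx)
  rw [mul_assoc, h1, mul_smul_comm, map_smul, ← mul_assoc, hγ.comm, ← hind x' y]
  by_cases hm : m ≤ 2 * Y.dim
  · obtain ⟨c, hc⟩ := Nat.exists_eq_add_of_le hm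
    have e1 : W.tr Y (y * P x') = W.tr Y (y * W.proj Y c (P x')) := by
      rw [← W.tr_mul_projL m c hc.symm, W.proj_of_mem hy]
    have e2 : W.tr Y (P x' * y) = W.tr Y (W.proj Y c (P x') * y) := by
      rw [W.tr_mul_projL c m (by omega), W.proj_of_mem hy]
    rw [e1, W.mul_comm Y m c y hy _ (W.proj_mem Y c _), map_smul, ← e2]
    by_cases hpar : Even (m * c) ↔ Even (m * m')
    · congr 1
      by_cases h : Even (m * c)
      · rw [h.neg_one_pow, (hpar.1 h).neg_one_pow]
      · rw [(Nat.not_even_iff_odd.1 h).neg_one_pow,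
          (Nat.not_even_iff_odd.1 fun h' => h (hpar.2 h')).neg_one_pow]
    · have h0 : W.tr Y (P x' * y) = 0 := by
        rw [hind x' y, ← W.sum_proj _ γ]
        simp only [map_sum, Finset.mul_sum, Finset.sum_mul]
        refine Finset.sum_eq_zero fun d _ => ?_
        rcases Nat.even_or_odd d with hd | hd
        · refine W.tr_deg _ (m' + d + m) ?_ _ (SetLike.mul_mem_graded (SetLike.mul_mem_graded
            (W.pull_deg _ m' x' hx) (W.proj_mem _ d γ)) (W.pull_deg _ m y hy))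
          intro h
          apply hpar
          change m' + d + m = 2 * (X.dim + Y.dim) at h
          obtain ⟨d, rfl⟩ := hd
          have : Even c ↔ Even m' := by
            rw [Nat.even_iff, Nat.even_iff]
            omega
          simp [Nat.even_mul, this]
        · rw [hγ.proj_odd d hd, mul_zero, zero_mul, map_zero]
      rw [h0, smul_zero, smul_zero]
  · have : y = 0 := by
      have h := W.deg_eq_bot Y m (by omega)
      rw [h] at hy
      exact hy
    simp [this]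

theorem op_tp (R : CycleMap T W) (x : T.A (X.prod Y)) :
    R.op (T.tp x) = W.tpose (R.op x) := by
  rw [tpose_eq (R.isAlg_γ x) (R.induces_op x)]
  ext y
  have e1 : fstH Y X = pair (sndH Y X) (fstH Y X) ≫ sndH X Y := (pair_snd _ _).symm
  have e2 : sndH Y X = pair (sndH Y X) (fstH Y X) ≫ fstH X Y := (pair_fst _ _).symm
  rw [R.op_apply, ChowTheory.tp, ChowTheory.ev, R.γ_pull]
  have h1 : W.pull (fstH Y X) y = W.pull (pair (sndH Y X) (fstH Y X)) (W.pull (sndH X Y) y) := by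
    rw [← W.pull_comp, ← e1]
  have h2 : W.push (sndH Y X) = W.push (fstH X Y) ∘ₗ W.push (pair (sndH Y X) (fstH Y X)) := by
    rw [← W.push_comp, ← e2]
  rw [h1, ← map_mul, h2, LinearMap.comp_apply,
    R.push_pull_iso _ _ (ChowTheory.swap_swap Y X) (ChowTheory.swap_swap X Y),
    ← (R.isAlg_γ x).comm]
  rfl

theorem tpose_smul (c : K) (P : W.H X →ₗ[K] W.H Y) : W.tpose (c • P) = c • W.tpose P := by
  ext y
  exact W.eq_of_trL fun x => by simp [W.tr_tpose_mul]

theorem tpose_par (X : SmProj k) : W.tpose (par W X) = par W X := by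
  ext y
  exact W.eq_of_trL fun x => by rw [W.tr_tpose_mul, tr_par_mul]

theorem par_tpose {b : Bool} {P : W.H X →ₗ[K] W.H Y} (h : Par W b P) (hP : W.AlgOp P) :
    Par W b (W.tpose P) := by
  unfold Par at *
  rw [← tpose_par Y, ← W.tpose_comp, ← algOp_par hP, h, tpose_smul]

theorem par_left {b : Bool} {P : W.H X →ₗ[K] W.H Y} (h : Par W b P) (U : W.H Y →ₗ[K] W.H Z) :
    Par W b (U ∘ₗ P) := by
  unfold Par at *
  rw [LinearMap.comp_assoc, h, LinearMap.comp_smul]

theorem par_right {b : Bool} {P : W.H Y →ₗ[K] W.H Z} (h : Par W b P) {V : W.H X →ₗ[K] W.H Y}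
    (hV : W.AlgOp V) : Par W b (P ∘ₗ V) := by
  unfold Par at *
  rw [LinearMap.comp_assoc, algOp_par hV, ← LinearMap.comp_assoc V, h, LinearMap.smul_comp]

/-! ### The ideal -/

omit [IsAlgClosed k] in
theorem comp_smul (q : ℚ) (β : T.A (Y.prod Z)) (α : T.A (X.prod Y)) :
    T.comp β (q • α) = q • T.comp β α := by
  simp only [T.comp_eq, ChowTheory.ev, map_smul, smul_mul_assoc]

omit [IsAlgClosed k] in
theorem smul_comp (q : ℚ) (β : T.A (Y.prod Z)) (α : T.A (X.prod Y)) :
    T.comp (q • β) α = q • T.comp β α := by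
  simp only [T.comp_eq, ChowTheory.ev, map_smul, mul_smul_comm]

omit [IsAlgClosed k] in
theorem tp_add (x y : T.A (X.prod Y)) : T.tp (x + y) = T.tp x + T.tp y := map_add _ _ _

omit [IsAlgClosed k] in
theorem tp_sub (x y : T.A (X.prod Y)) : T.tp (x - y) = T.tp x - T.tp y := map_sub _ _ _

omit [IsAlgClosed k] in
theorem tp_smul (q : ℚ) (x : T.A (X.prod Y)) : T.tp (q • x) = q • T.tp x := map_smul _ _ _

omit [IsAlgClosed k] in
theorem tp_mem {j : ℕ} {x : T.A (X.prod Y)} (hx : x ∈ T.CH _ j) : T.tp x ∈ T.CH _ j :=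
  T.pull_mem _ hx

omit [IsAlgClosed k] in
theorem tp_diag (X : SmProj k) : T.tp (T.diag X) = T.diag X := by
  have h := T.dl_symm (sndH X X) (fstH X X)
  rw [ChowTheory.dl, ChowTheory.dl, T.ev_fst_snd] at h
  exact h

/-- Sums of homogeneous finite-dimensional correspondences of parity `b`. -/
noncomputable def HF (T : ChowTheory k) (b : Bool) (X Y : SmProj k) : AddSubmonoid (T.A (X.prod Y)) :=
  AddSubmonoid.closure {y : T.A (X.prod Y) | (∃ j, y ∈ T.CH _ j) ∧ T.FinRk b y}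

variable {b : Bool}

omit [IsAlgClosed k] in
theorem HF.of_mem {x : T.A (X.prod Y)} {j : ℕ} (hx : x ∈ T.CH _ j) (h : T.FinRk b x) :
    x ∈ HF T b X Y := AddSubmonoid.subset_closure ⟨⟨j, hx⟩, h⟩

omit [IsAlgClosed k] in
theorem HF.finRk {x : T.A (X.prod Y)} (h : x ∈ HF T b X Y) : T.FinRk b x := by
  induction h using AddSubmonoid.closure_induction with
  | mem y hy => exact hy.2
  | zero => exact ChowTheory.FinRk.zero
  | add y z _ _ hy hz => exact hy.add hz

omit [IsAlgClosed k] in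
theorem HF.comp_left {x : T.A (X.prod Y)} (h : x ∈ HF T b X Y) (β : T.A (Y.prod Z)) :
    T.comp β x ∈ HF T b X Z := by
  induction h using AddSubmonoid.closure_induction with
  | mem y hy =>
    obtain ⟨⟨j, hj⟩, hy⟩ := hy
    induction β using T.hom_ind with
    | h0 => rw [T.zero_comp]; exact zero_mem _
    | hadd a c ha hc => rw [T.add_comp]; exact add_mem ha hc
    | h i β hβ =>
      obtain ⟨n, hn⟩ := T.comp_mem' hβ hj
      exact HF.of_mem hn (hy.comp_left β)
  | zero => rw [T.comp_zero]; exact zero_mem _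
  | add y z _ _ hy hz => rw [T.comp_add]; exact add_mem hy hz

omit [IsAlgClosed k] in
theorem HF.tp {x : T.A (X.prod Y)} (h : x ∈ HF T b X Y) : T.tp x ∈ HF T b Y X := by
  induction h using AddSubmonoid.closure_induction with
  | mem y hy =>
    obtain ⟨⟨j, hj⟩, hy⟩ := hy
    exact HF.of_mem (tp_mem hj) hy.tp
  | zero =>
    have : T.tp (0 : T.A (X.prod Y)) = 0 := map_zero _
    rw [this]; exact zero_mem _
  | add y z _ _ hy hz => rw [tp_add]; exact add_mem hy hz

omit [IsAlgClosed k] in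
theorem HF.comp_right {x : T.A (Y.prod Z)} (h : x ∈ HF T b Y Z) (α : T.A (X.prod Y)) :
    T.comp x α ∈ HF T b X Z := by
  have h1 := HF.tp (HF.comp_left (HF.tp h) (T.tp α))
  rwa [← T.tp_comp, T.tp_tp] at h1

/-- Sums of an even and an odd finite-dimensional correspondence. -/
def FD (R : CycleMap T W) (x : T.A (X.prod Y)) : Prop :=
  ∃ x₀ ∈ HF T false X Y, ∃ x₁ ∈ HF T true X Y, Par W false (R.op x₀) ∧ Par W true (R.op x₁) ∧
    x₀ + x₁ = x

variable {R : CycleMap T W}

theorem FD.zero : FD R (0 : T.A (X.prod Y)) :=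
  ⟨0, zero_mem _, 0, zero_mem _, by rw [R.op_zero]; exact Par.zero,
    by rw [R.op_zero]; exact Par.zero, add_zero _⟩

theorem FD.add {x y : T.A (X.prod Y)} (h : FD R x) (h' : FD R y) : FD R (x + y) := by
  obtain ⟨x₀, a, x₁, b, c, d, rfl⟩ := h
  obtain ⟨y₀, a', y₁, b', c', d', rfl⟩ := h'
  exact ⟨_, add_mem a a', _, add_mem b b', by rw [R.op_add]; exact c.add c',
    by rw [R.op_add]; exact d.add d', add_add_add_comm _ _ _ _⟩

theorem FD.comp_left {x : T.A (X.prod Y)} (h : FD R x) (β : T.A (Y.prod Z)) :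
    FD R (T.comp β x) := by
  obtain ⟨x₀, a, x₁, b, c, d, rfl⟩ := h
  refine ⟨_, HF.comp_left a β, _, HF.comp_left b β, ?_, ?_, (T.comp_add _ _ _).symm⟩
  · rw [R.op_comp]
    exact par_left c _
  · rw [R.op_comp]
    exact par_left d _

theorem FD.comp_right {x : T.A (Y.prod Z)} (h : FD R x) (α : T.A (X.prod Y)) :
    FD R (T.comp x α) := by
  obtain ⟨x₀, a, x₁, b, c, d, rfl⟩ := h
  refine ⟨_, HF.comp_right a α, _, HF.comp_right b α, ?_, ?_, (T.add_comp _ _ _).symm⟩
  · rw [R.op_comp]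
    exact par_right c (R.algOp_op α)
  · rw [R.op_comp]
    exact par_right d (R.algOp_op α)

theorem FD.smul {x : T.A (X.prod Y)} (h : FD R x) (q : ℚ) : FD R (q • x) := by
  have h1 := h.comp_left (q • T.diag Y)
  rwa [smul_comp, T.diag_comp] at h1

theorem FD.neg {x : T.A (X.prod Y)} (h : FD R x) : FD R (-x) := by
  have h1 := h.smul (-1)
  rwa [neg_one_smul] at h1

theorem FD.sub {x y : T.A (X.prod Y)} (h : FD R x) (h' : FD R y) : FD R (x - y) := by
  rw [sub_eq_add_neg]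
  exact h.add h'.neg

theorem FD.tp {x : T.A (X.prod Y)} (h : FD R x) : FD R (T.tp x) := by
  obtain ⟨x₀, a, x₁, b, c, d, rfl⟩ := h
  refine ⟨_, HF.tp a, _, HF.tp b, ?_, ?_, (tp_add _ _).symm⟩
  · rw [op_tp]
    exact par_tpose c (R.algOp_op _)
  · rw [op_tp]
    exact par_tpose d (R.algOp_op _)

theorem FD.fdOp {x : T.A (X.prod Y)} (h : FD R x) : FDOp R (R.op x) := by
  obtain ⟨x₀, a, x₁, b, c, d, rfl⟩ := h
  exact ⟨_, _, ⟨x₀, a, rfl⟩, ⟨x₁, b, rfl⟩, c, d, (R.op_add _ _).symm⟩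

theorem exists_FD {Q : W.H X →ₗ[K] W.H Y} (h : FDOp R Q) : ∃ x, FD R x ∧ R.op x = Q := by
  obtain ⟨_, _, ⟨x₀, a, rfl⟩, ⟨x₁, b, rfl⟩, c, d, rfl⟩ := h
  exact ⟨_, ⟨x₀, a, x₁, b, c, d, rfl⟩, R.op_add _ _⟩

theorem fdOp_neg {Q : W.H X →ₗ[K] W.H Y} (h : FDOp R Q) : FDOp R (-Q) := by
  obtain ⟨x, hx, rfl⟩ := exists_FD h
  have h1 := (FD.zero.sub hx).fdOp
  rwa [R.op_sub, R.op_zero, zero_sub] at h1

theorem fdOp_sub {Q Q' : W.H X →ₗ[K] W.H Y} (h : FDOp R Q) (h' : FDOp R Q') :
    FDOp R (Q - Q') := by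
  rw [sub_eq_add_neg]
  exact h.add (fdOp_neg h')

theorem fdOp_tpose {Q : W.H X →ₗ[K] W.H Y} (h : FDOp R Q) : FDOp R (W.tpose Q) := by
  obtain ⟨x, hx, rfl⟩ := exists_FD h
  rw [← op_tp]
  exact hx.tp.fdOp

theorem fdOp_left {Q : W.H X →ₗ[K] W.H Y} (h : FDOp R Q) {U : W.H Y →ₗ[K] W.H Z}
    (hU : W.AlgOp U) : FDOp R (U ∘ₗ Q) := by
  obtain ⟨x, hx, rfl⟩ := exists_FD h
  obtain ⟨β, rfl⟩ := R.exists_op hU
  rw [← R.op_comp]
  exact (hx.comp_left β).fdOp

theorem fdOp_right {Q : W.H Y →ₗ[K] W.H Z} (h : FDOp R Q) {V : W.H X →ₗ[K] W.H Y}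
    (hV : W.AlgOp V) : FDOp R (Q ∘ₗ V) := by
  obtain ⟨x, hx, rfl⟩ := exists_FD h
  obtain ⟨β, rfl⟩ := R.exists_op hV
  rw [← R.op_comp]
  exact (hx.comp_right β).fdOp

theorem par_split {P₀ P₁ : W.H X →ₗ[K] W.H Y} (c : Par W false P₀) (d : Par W true P₁) {m : ℕ}
    {x : W.H X} (hx : x ∈ W.deg X m) : P₀ x = 0 ∨ P₁ x = 0 := by
  by_cases hm : Odd m
  · exact .inl (c.apply_eq_zero (by simp [hm]) hx)
  · exact .inr (d.apply_eq_zero (by simp [hm]) hx)

/-- The operators `P : H(X) → H(Y)` of the degree of the classes of codimension `j`. -/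
def Hom (W : WeilCohomology.{u, v, w} k K) (j : ℕ) (P : W.H X →ₗ[K] W.H Y) : Prop :=
  ∀ m m', m' + 2 * X.dim ≠ m + 2 * j → ∀ x ∈ W.deg X m, W.proj Y m' (P x) = 0

theorem exists_mem_of_fOp {P : W.H X →ₗ[K] W.H Y} (h : FOp R b P) {j : ℕ} (hP : Hom W j P) :
    ∃ x ∈ T.CH (X.prod Y) j, T.FinRk b x ∧ R.op x = P := by
  obtain ⟨γ, hγ, hi⟩ := h.algOp.exists_C j hP
  obtain ⟨x, hx, e⟩ := h
  have key : ∃ x' ∈ T.CH (X.prod Y) j, T.FinRk b x' ∧
      R.γ _ x' = W.proj (X.prod Y) (2 * j) (R.γ _ x) := by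
    clear e
    induction hx using AddSubmonoid.closure_induction with
    | mem y hy =>
      obtain ⟨⟨i, hi⟩, hy⟩ := hy
      by_cases hjd : i = j
      · subst hjd
        exact ⟨y, hi, hy, (W.proj_of_mem (R.γ_mem hi)).symm⟩
      · exact ⟨0, zero_mem _, ChowTheory.FinRk.zero, by
          rw [map_zero, W.proj_of_mem_ne (R.γ_mem hi) (by omega)]⟩
    | zero => exact ⟨0, zero_mem _, ChowTheory.FinRk.zero, by rw [map_zero, map_zero]⟩
    | add y z _ _ hy hz =>
      obtain ⟨y', a, b, c⟩ := hy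
      obtain ⟨z', a', b', c'⟩ := hz
      exact ⟨y' + z', add_mem a a', b.add b', by rw [map_add, map_add, map_add, c, c']⟩
  obtain ⟨x', a, b, c⟩ := key
  refine ⟨x', a, b, ?_⟩
  have h1 := R.induces_op x
  rw [e] at h1
  rw [← e]
  refine R.op_congr ?_
  rw [c, h1.unique hi, W.proj_of_mem (WeilCohomology.mem_deg_of_C hγ)]

theorem exists_mem_FD {Q : W.H X →ₗ[K] W.H Y} (h : FDOp R Q) {j : ℕ} (hQ : Hom W j Q) :
    ∃ x ∈ T.CH (X.prod Y) j, FD R x ∧ R.op x = Q := by
  obtain ⟨P₀, P₁, a, b, c, d, rfl⟩ := h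
  have h0 : Hom W j P₀ := fun m m' hm x hx => by
    rcases par_split c d hx with h | h
    · rw [h, map_zero]
    · have := hQ m m' hm x hx
      rwa [LinearMap.add_apply, h, add_zero] at this
  have h1 : Hom W j P₁ := fun m m' hm x hx => by
    rcases par_split c d hx with h | h
    · have := hQ m m' hm x hx
      rwa [LinearMap.add_apply, h, zero_add] at this
    · rw [h, map_zero]
  obtain ⟨x₀, a0, b0, rfl⟩ := exists_mem_of_fOp a h0
  obtain ⟨x₁, a1, b1, rfl⟩ := exists_mem_of_fOp b h1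
  exact ⟨x₀ + x₁, add_mem a0 a1, ⟨x₀, HF.of_mem a0 b0, x₁, HF.of_mem a1 b1, c, d, rfl⟩,
    R.op_add _ _⟩

theorem nil_of_finRk (x : T.End X) (h : T.FinRk b x.val) (h0 : R.ρ X x = 0) : IsNilpotent x :=
  ChowTheory.FinRk.isNilpotent x h fun m => R.trc_eq_zero (by
    rw [← R.ρ_apply, map_pow, h0, zero_pow (Nat.succ_ne_zero m)])

/-- A homologically trivial element of the ideal is nilpotent. -/
theorem FD.isNilpotent (x : T.End X) (h : FD R x.val) (h0 : R.ρ X x = 0) : IsNilpotent x := by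
  obtain ⟨x₀, a, x₁, b, c, d, e⟩ := h
  have h1 : R.op x₀ + R.op x₁ = 0 := by
    rw [← R.op_add, e]
    exact h0
  have h2 : R.op x₀ = 0 := W.hom_ext fun m y hy => by
    rcases par_split c d hy with h | h
    · exact h
    · have := LinearMap.congr_fun h1 y
      rwa [LinearMap.add_apply, h, add_zero] at this
  have h3 : R.op x₁ = 0 := by rwa [h2, zero_add] at h1
  set y : T.End X := ChowTheory.End.mk x₀
  set z : T.End X := ChowTheory.End.mk x₁
  have hx : x = y + z := e.symm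
  obtain ⟨n, hn⟩ := nil_of_finRk (R := R) y (HF.finRk a) h2
  have key : ∀ n : ℕ, ∃ r : T.End X, T.FinRk true r.val ∧ R.ρ X r = 0 ∧ x ^ n = y ^ n + r := by
    intro n
    induction n with
    | zero => exact ⟨0, ChowTheory.FinRk.zero, map_zero _, by simp⟩
    | succ n ih =>
      obtain ⟨r, r1, r2, r3⟩ := ih
      refine ⟨y ^ n * z + r * x, ChowTheory.FinRk.add ((HF.finRk b).comp_left (y ^ n).val)
        (r1.comp_right x.val), ?_, ?_⟩
      · have : R.ρ X z = 0 := h3
        rw [map_add, map_mul, map_mul, this, r2, mul_zero, zero_mul, add_zero]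
      · rw [pow_succ, r3, add_mul, pow_succ]
        nth_rw 1 [hx]
        rw [mul_add, add_assoc]
  obtain ⟨r, r1, r2, r3⟩ := key n
  rw [hn, zero_add] at r3
  exact IsNilpotent.of_pow (r3 ▸ nil_of_finRk (R := R) r r1 r2)

/-- The ideal in the ring of self-correspondences. -/
noncomputable def idl (R : CycleMap T W) (X : SmProj k) : TwoSidedIdeal (T.End X) :=
  TwoSidedIdeal.mk' {x | FD R x.val} FD.zero (fun h h' => FD.add h h') (fun h => FD.neg h)
    (fun {x _} h => FD.comp_left h x.val) fun {_ y} h => FD.comp_right h y.val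

/-- The quotient map. -/
noncomputable def red (R : CycleMap T W) (X : SmProj k) :
    T.End X →+* (idl R X).ringCon.Quotient := (idl R X).ringCon.mk'

theorem red_eq_iff {x y : T.End X} : red R X x = red R X y ↔ FD R (x - y).val := by
  have h : red R X x = red R X y ↔ (idl R X).ringCon x y := RingCon.eq _
  rw [h, TwoSidedIdeal.rel_iff, idl, TwoSidedIdeal.mem_mk']
  rfl

theorem red_eq_zero {x : T.End X} : red R X x = 0 ↔ FD R x.val := by
  rw [← map_zero (red R X), red_eq_iff, sub_zero]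

/-- Lifts of the Kuenneth projectors that are orthogonal idempotents modulo the ideal give a
Chow-Kuenneth decomposition. -/
theorem hasCK_of_red (R : CycleMap T W) (Y : SmProj k) (q : Fin (2 * Y.dim + 1) → T.End Y)
    (hq : ∀ n, q n ∈ degZero T Y) (hρ : ∀ n, R.ρ Y (q n) = W.proj Y n)
    (hI : CompleteOrthogonalIdempotents fun n => red R Y (q n)) : HasCK R Y := by
  let f := ((red R Y).prod (R.ρ Y)).comp (degZero T Y).subtype
  have hf : ∀ x ∈ RingHom.ker f, IsNilpotent x := by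
    intro x hx
    have h1 : f x = 0 := hx
    have h2 : IsNilpotent (x : T.End Y) :=
      FD.isNilpotent _ (red_eq_zero.1 (congrArg Prod.fst h1)) (congrArg Prod.snd h1)
    obtain ⟨n, hn⟩ := h2
    exact ⟨n, Subtype.ext (by simpa using hn)⟩
  have hc := proj_complete W Y
  have he : CompleteOrthogonalIdempotents fun n => f ⟨q n, hq n⟩ := by
    refine ⟨⟨fun n => Prod.ext (hI.idem n) ?_, fun m n hmn => Prod.ext (hI.ortho hmn) ?_⟩,
      Prod.ext ?_ ?_⟩
    · change R.ρ Y (q n) * R.ρ Y (q n) = R.ρ Y (q n)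
      rw [hρ]
      exact hc.idem n
    · change R.ρ Y (q m) * R.ρ Y (q n) = 0
      rw [hρ, hρ]
      exact hc.ortho hmn
    · rw [Prod.fst_sum]
      exact hI.complete
    · rw [Prod.snd_sum]
      exact (Finset.sum_congr rfl fun n _ => hρ n).trans hc.complete
  obtain ⟨p, hp, hp'⟩ := CompleteOrthogonalIdempotents.lift_of_isNilpotent_ker f hf he
    fun n => ⟨_, rfl⟩
  have hp1 := hp.map (degZero T Y).subtype
  have hp2 : ∀ n, R.ρ Y (p n) = W.proj Y n := fun n =>
    (congrArg Prod.snd (congr_fun hp' n)).trans (hρ n)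
  refine ⟨fun n => (p n : T.End Y).val, fun n => mem_degZero.1 (p n).2, fun m n => ?_,
    hp1.complete, fun n => ⟨W.proj Y n, ?_, fun i x hx => ?_⟩⟩
  · split_ifs with h
    · subst h
      exact hp1.idem m
    · exact hp1.ortho h
  · have h := R.induces_op (p n : T.End Y).val
    rwa [← R.ρ_apply, hp2] at h
  · split_ifs with h
    · subst h
      exact W.proj_of_mem hx
    · exact W.proj_of_mem_ne hx h

end Pool.Agent.P.MP_638e8a_ag.H67
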