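import Pool.Agent.P.MP_638e8a_ag_H67.Defs

/-!
Two abbreviations of linear algebra.
-/

universe u v w

namespace Pool.Agent.P.MP_638e8a_ag.H67

/-- The linear map `f` sends `x` into `S`. -/
def MapsInto {M N : Type u} [AddCommMonoid M] [Module ℚ M] [AddCommMonoid N] [Module ℚ N]
    (f : M →ₗ[ℚ] N) (x : M) (S : Submodule ℚ N) : Prop :=
  f x ∈ S

/-- `U ⊆ H`, and every element of `H` is an element of `U` plus a sum of terms `e a · f a (t a)`
with `t a` in `T a`. -/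
def Spans {K : Type v} [Field K] {A : Type w} [Ring A] [Algebra K A] {s : ℕ} {R : Fin s → Type w}
    [∀ a, Ring (R a)] [∀ a, Algebra K (R a)] (H U : Submodule K A) (e : Fin s → A)
    (f : ∀ a, R a →ₐ[K] A) (T : ∀ a, R a → Prop) : Prop :=
  U ≤ H ∧ ∀ x ∈ H, ∃ y ∈ U, ∃ t : ∀ a, R a, (∀ a, T a (t a)) ∧ x = y + ∑ a, e a * f a (t a)

end Pool.Agent.P.MP_638e8a_ag.H67
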