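import Pool.Agent.P.MP_638e8a_ag_H67.Ideal

/-!
Triangular families of idempotents modulo the ideal of finite-dimensional correspondences.
-/

open CategoryTheory AlgebraicGeometry MonoidalCategory CartesianMonoidalCategory Order

universe u v w

namespace Pool.Agent.P.MP_638e8a_ag.H67

open Pool.Agent.P.MP_90138e_ag

section Ring

variable {E E' ι κ : Type*} [Ring E] [Ring E'] [DecidableEq κ]

/-- The product of the complements. -/
def PP (f : ι → E) : List ι → E
  | [] => 1
  | a :: l => (1 - f a) * PP f l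

/-- The part of `1 - PP f l` of degree `i`. -/
def AA (f : ι → E) (dg : ι → κ) (i : κ) : List ι → E
  | [] => 0
  | a :: l => (if dg a = i then f a else 0) + (1 - f a) * AA f dg i l

theorem map_PP (φ : E →+* E') (f : ι → E) (l : List ι) :
    φ (PP f l) = PP (fun a => φ (f a)) l := by
  induction l with
  | nil => exact map_one φ
  | cons a l ih => rw [PP, PP, map_mul, map_sub, map_one, ih]

theorem map_AA (φ : E →+* E') (f : ι → E) (dg : ι → κ) (i : κ) (l : List ι) :
    φ (AA f dg i l) = AA (fun a => φ (f a)) dg i l := by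
  induction l with
  | nil => exact map_zero φ
  | cons a l ih =>
    rw [AA, AA, map_add, map_mul, map_sub, map_one, ih, apply_ite φ, map_zero]

theorem AA_mem (D : Subring E) {f : ι → E} (hf : ∀ a, f a ∈ D) (dg : ι → κ) (i : κ)
    (l : List ι) : AA f dg i l ∈ D := by
  induction l with
  | nil => exact D.zero_mem
  | cons a l ih =>
    refine D.add_mem ?_ (D.mul_mem (D.sub_mem D.one_mem (hf a)) ih)
    split_ifs
    · exact hf a
    · exact D.zero_mem

theorem sum_AA [Fintype κ] (f : ι → E) (dg : ι → κ) (l : List ι) :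
    ∑ i, AA f dg i l + PP f l = 1 := by
  induction l with
  | nil => simp [AA, PP]
  | cons a l ih =>
    simp only [AA, PP, Finset.sum_add_distrib, Finset.sum_ite_eq, Finset.mem_univ, if_true]
    rw [← Finset.mul_sum, add_assoc, ← mul_add, ih, mul_one, add_sub_cancel]

theorem PP_fix {M : Type*} [AddCommGroup M] [Module E M] (f : ι → E) (x : M) (l : List ι)
    (h : ∀ b ∈ l, f b • x = 0) : PP f l • x = x := by
  induction l with
  | nil => exact one_smul _ _
  | cons a l ih =>
    rw [PP, mul_smul, ih fun b hb => h b (List.mem_cons_of_mem _ hb), sub_smul, one_smul,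
      h a List.mem_cons_self, sub_zero]

theorem PP_kill {M : Type*} [AddCommGroup M] [Module E M] (f : ι → E) {lt : ι → ι → Prop}
    {l : List ι} (hl : l.Pairwise lt) {a : ι} (ha : a ∈ l) {x : M} (h : f a • x = x)
    (h' : ∀ b, lt a b → f b • x = 0) : PP f l • x = 0 := by
  induction l with
  | nil => simp at ha
  | cons c l ih =>
    rw [List.pairwise_cons] at hl
    rw [PP, mul_smul]
    rcases List.mem_cons.1 ha with rfl | ha
    · rw [PP_fix f x l fun b hb => h' b (hl.1 b hb), sub_smul, one_smul, h, sub_self]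
    · rw [ih hl.2 ha, smul_zero]

theorem AA_mul_eq_zero (f : ι → E) (dg : ι → κ) (i : κ) (x : E) (l : List ι)
    (h : ∀ b ∈ l, f b * x = 0) : AA f dg i l * x = 0 := by
  induction l with
  | nil => exact zero_mul _
  | cons a l ih =>
    rw [AA, add_mul, mul_assoc, ih fun b hb => h b (List.mem_cons_of_mem _ hb), mul_zero,
      add_zero]
    split_ifs
    · exact h a List.mem_cons_self
    · exact zero_mul _

theorem AA_mul_AA {f : ι → E} (dg : ι → κ) {lt : ι → ι → Prop} (hid : ∀ a, f a * f a = f a)
    (htri : ∀ a b, lt a b → f b * f a = 0) {l : List ι} (hl : l.Pairwise lt) (i j : κ) :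
    AA f dg i l * AA f dg j l = if i = j then AA f dg i l else 0 := by
  induction l with
  | nil => simp [AA]
  | cons a l ih =>
    rw [List.pairwise_cons] at hl
    have h1 : AA f dg i l * f a = 0 :=
      AA_mul_eq_zero f dg i _ l fun b hb => htri a b (hl.1 b hb)
    have h2 : f a * (1 - f a) = 0 := by rw [mul_sub, mul_one, hid, sub_self]
    have h3 : (if dg a = i then f a else 0) * ((1 - f a) * AA f dg j l) = 0 := by
      split_ifs
      · rw [← mul_assoc, h2, zero_mul]
      · exact zero_mul _
    have h4 : (1 - f a) * AA f dg i l * (if dg a = j then f a else 0) = 0 := by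
      split_ifs
      · rw [mul_assoc, h1, mul_zero]
      · exact mul_zero _
    have h5 : (1 - f a) * AA f dg i l * ((1 - f a) * AA f dg j l) =
        (1 - f a) * (AA f dg i l * AA f dg j l) := by
      rw [mul_assoc, ← mul_assoc (AA f dg i l), mul_sub (AA f dg i l), h1, mul_one, sub_zero]
    rw [AA, AA, add_mul, mul_add, mul_add, h3, h4, h5, ih hl.2, add_zero, zero_add]
    by_cases hij : i = j
    · subst hij
      rw [if_pos rfl, if_pos rfl]
      split_ifs
      · rw [hid]
      · rw [mul_zero]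
    · rw [if_neg hij, if_neg hij, mul_zero, add_zero]
      split_ifs with h6 h7
      · exact absurd (h6.symm.trans h7) hij
      · exact mul_zero _
      · exact zero_mul _
      · exact zero_mul _

theorem complete_update [Fintype κ] (p : κ → E) (hp : ∀ i j, p i * p j = if i = j then p i else 0)
    (i₀ : κ) : CompleteOrthogonalIdempotents
      (Function.update p i₀ (1 - ∑ i ∈ Finset.univ.erase i₀, p i)) := by
  set s := Finset.univ.erase i₀ with hs
  set q : E := 1 - ∑ i ∈ s, p i with hq
  have h1 : ∀ i, IsIdempotentElem (p i) := fun i => (hp i i).trans (if_pos rfl)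
  have h2 : ∀ i j, i ≠ j → p i * p j = 0 := fun i j h => (hp i j).trans (if_neg h)
  have hm : ∀ i, i ≠ i₀ → i ∈ s := fun i hi => Finset.mem_erase.2 ⟨hi, Finset.mem_univ _⟩
  have hk := sum_kill s p (fun i _ => h1 i) fun i _ j _ => h2 i j
  have hsum : ∑ i, Function.update p i₀ q i = 1 := by
    rw [Finset.sum_update_of_mem (Finset.mem_univ _), ← Finset.erase_eq, hq, sub_add_cancel]
  refine CompleteOrthogonalIdempotents.iff_ortho_complete.2 ⟨fun i j hij => ?_, hsum⟩
  rcases eq_or_ne i i₀ with rfl | hi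
  · rw [Function.update_self, Function.update_of_ne hij.symm]
    exact (hk j (hm j hij.symm)).1
  · rcases eq_or_ne j i₀ with rfl | hj
    · rw [Function.update_self, Function.update_of_ne hi]
      exact (hk i (hm i hi)).2
    · rw [Function.update_of_ne hi, Function.update_of_ne hj]
      exact h2 i j hij

end Ring

variable {k : Type u} [Field k] [IsAlgClosed k] {K : Type v} [Field K] [CharZero K]
  {T : ChowTheory k} {W : WeilCohomology.{u, v, w} k K} {X Y : SmProj k} {R : CycleMap T W}

theorem fdOp_sum {ι : Type*} (s : Finset ι) (Q : ι → (W.H X →ₗ[K] W.H Y))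
    (h : ∀ i ∈ s, FDOp R (Q i)) : FDOp R (∑ i ∈ s, Q i) :=
  Finset.sum_induction _ (FDOp R) (fun _ _ => FDOp.add) FDOp.zero h

theorem algOp_ρ (x : T.End X) : W.AlgOp (R.ρ X x) := R.algOp_op _

theorem hom_op {j : ℕ} {x : T.A (X.prod Y)} (hx : x ∈ T.CH _ j) : Hom W j (R.op x) := by
  intro m m' hm a ha
  by_cases hle : m' ≤ 2 * Y.dim
  · refine W.poincare_deg Y m' (2 * Y.dim - m') (by omega) _ (W.proj_mem Y m' _) fun y hy => ?_
    rw [W.tr_proj_mul (by omega) _ hy, R.induces_op x a y]
    refine W.tr_deg (X.prod Y) (m + 2 * j + (2 * Y.dim - m')) ?_ _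
      (SetLike.mul_mem_graded (SetLike.mul_mem_graded (W.pull_deg _ m a ha) (R.γ_mem hx))
        (W.pull_deg _ _ y hy))
    change _ ≠ 2 * (X.dim + Y.dim)
    omega
  · have h := W.proj_mem Y m' (R.op x a)
    rwa [W.deg_eq_bot Y m' (by omega), Submodule.mem_bot] at h

/-- Transposition on the ring of self-correspondences. -/
noncomputable def tE (x : T.End X) : T.End X := ChowTheory.End.mk (T.tp x.val)

omit [IsAlgClosed k] in
theorem tE_mul (x y : T.End X) : tE (x * y) = tE y * tE x := T.tp_comp x.val y.val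

omit [IsAlgClosed k] in
theorem tE_add (x y : T.End X) : tE (x + y) = tE x + tE y := tp_add x.val y.val

omit [IsAlgClosed k] in
theorem tE_zero : tE (0 : T.End X) = 0 := map_zero (T.pull _)

theorem ρ_tE (x : T.End X) : R.ρ X (tE x) = W.tpose (R.ρ X x) := op_tp R x.val

theorem tpose_sub (P Q : W.H X →ₗ[K] W.H Y) : W.tpose (P - Q) = W.tpose P - W.tpose Q := by
  ext y
  exact W.eq_of_trL fun x => by simp [W.tr_tpose_mul, sub_mul, mul_sub]

theorem fd_low {ι : Type*} (l : List ι) {f : ι → T.End X} {dg : ι → Fin (2 * X.dim + 1)}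
    (hdg : ∀ a i, dg a ≠ i → FDOp R (R.ρ X (f a) ∘ₗ W.proj X i)) (i : Fin (2 * X.dim + 1))
    (hi : FDOp R (R.ρ X (PP f l) ∘ₗ W.proj X i)) :
    FDOp R (W.proj X i - R.ρ X (AA f dg i l)) := by
  have h1 : ∀ (i j : Fin (2 * X.dim + 1)), i ≠ j → ∀ l' : List ι,
      FDOp R (R.ρ X (AA f dg i l') ∘ₗ W.proj X j) := by
    intro i j hij l'
    induction l' with
    | nil =>
      rw [AA, map_zero, LinearMap.zero_comp]
      exact FDOp.zero
    | cons a l' ih =>
      rw [AA, map_add, LinearMap.add_comp, map_mul, Module.End.mul_eq_comp, LinearMap.comp_assoc]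
      refine FDOp.add ?_ (fdOp_left ih (algOp_ρ _))
      split_ifs with h
      · exact hdg a j (h ▸ hij)
      · rw [map_zero, LinearMap.zero_comp]
        exact FDOp.zero
  have e1 : ∑ j, R.ρ X (AA f dg j l) + R.ρ X (PP f l) = 1 := by
    rw [← map_sum, ← map_add, sum_AA, map_one]
  have e2 := (proj_complete W X).complete
  have e3 : W.proj X i - R.ρ X (AA f dg i l) = R.ρ X (PP f l) ∘ₗ W.proj X i +
      ∑ j ∈ Finset.univ.erase i, R.ρ X (AA f dg j l) ∘ₗ W.proj X i -
      ∑ j ∈ Finset.univ.erase i, R.ρ X (AA f dg i l) ∘ₗ W.proj X j := by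
    rw [← Finset.add_sum_erase _ _ (Finset.mem_univ i)] at e1 e2
    simp only [← Module.End.mul_eq_comp]
    rw [← Finset.sum_mul, ← Finset.mul_sum, eq_sub_of_add_eq' e2, ← add_mul,
      show R.ρ X (PP f l) + ∑ j ∈ Finset.univ.erase i, R.ρ X (AA f dg j l) =
        1 - R.ρ X (AA f dg i l) by rw [← e1]; abel, sub_mul, mul_sub, one_mul, mul_one]
    abel
  rw [e3]
  exact fdOp_sub (hi.add (fdOp_sum _ _ fun j hj => h1 j i (Finset.ne_of_mem_erase hj) l))
    (fdOp_sum _ _ fun j hj => h1 i j (Finset.ne_of_mem_erase hj).symm l)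

theorem hasCK_tri (R : CycleMap T W) (X : SmProj k) {ι : Type*} {lt : ι → ι → Prop}
    {l : List ι} (hl : l.Pairwise lt) (hall : ∀ a, a ∈ l) (f f' : ι → T.End X)
    (dg : ι → Fin (2 * X.dim + 1)) (hf : ∀ a, f a ∈ degZero T X) (hid : ∀ a, f a * f a = f a)
    (htri : ∀ a b, lt a b → FD R (f b * f a).val)
    (hdg : ∀ a i, dg a ≠ i → FDOp R (R.ρ X (f a) ∘ₗ W.proj X i))
    (hdg' : ∀ a i, dg a ≠ i → FDOp R (R.ρ X (f' a) ∘ₗ W.proj X i))
    (hsym : ∀ a, tE (f' a) = 0 ∨ ∃ b, tE (f' a) = f b)
    (hlow : ∀ i < X.dim, FDOp R (R.ρ X (PP f l) ∘ₗ W.proj X i))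
    (hlow' : ∀ i < X.dim, FDOp R (R.ρ X (PP f' l) ∘ₗ W.proj X i)) : HasCK R X := by
  have hid' : ∀ a, red R X (f a) * red R X (f a) = red R X (f a) := fun a => by
    rw [← map_mul, hid]
  have htri' : ∀ a b, lt a b → red R X (f b) * red R X (f a) = 0 := fun a b h => by
    rw [← map_mul]
    exact red_eq_zero.2 (htri a b h)
  have hP : ∀ a, red R X (PP f l) * red R X (f a) = 0 := fun a => by
    rw [map_PP]
    exact PP_kill (fun a => red R X (f a)) hl (hall a) (x := red R X (f a)) (hid' a) (htri' a)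
  have h3 : ∀ i (l' : List ι), red R X (PP f l) * red R X (tE (AA f' dg i l')) = 0 := by
    intro i l'
    induction l' with
    | nil => rw [AA, tE_zero, map_zero, mul_zero]
    | cons a l' ih =>
      rw [AA, tE_add, tE_mul, map_add, map_mul, mul_add, ← mul_assoc, ih, zero_mul, add_zero]
      split_ifs
      · obtain hb | ⟨b, hb⟩ := hsym a
        · rw [hb, map_zero, mul_zero]
        · rw [hb, hP]
      · rw [tE_zero, map_zero, mul_zero]
  have h4 : ∀ i : Fin (2 * X.dim + 1), (i : ℕ) ≠ X.dim →
      FDOp R (W.proj X i - R.ρ X (AA f dg i l)) := by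
    intro i hi
    refine fd_low l hdg i ?_
    rcases lt_or_gt_of_ne hi with h | h
    · exact hlow i h
    · have hi' := i.2
      have e1 := fdOp_tpose (fd_low l hdg' ⟨2 * X.dim - i, by omega⟩
        (hlow' (2 * X.dim - i) (by omega)))
      rw [tpose_sub, W.tpose_proj i _ (by simp only; omega), ← ρ_tE] at e1
      have e2 := (red_eq_zero.1 ((map_mul _ _ _).trans (h3 ⟨2 * X.dim - i, by omega⟩ l))).fdOp
      rw [← R.ρ_apply, map_mul, Module.End.mul_eq_comp] at e2
      have e3 := (fdOp_left e1 (algOp_ρ (R := R) (PP f l))).add e2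
      rwa [LinearMap.comp_sub, sub_add_cancel] at e3
  have hA : ∀ i, AA f dg i l ∈ degZero T X := fun i => AA_mem _ hf dg i l
  have h5 : ∀ i : Fin (2 * X.dim + 1), ∃ q ∈ degZero T X, red R X q = red R X (AA f dg i l) ∧
      ((i : ℕ) ≠ X.dim → R.ρ X q = W.proj X i) := by
    intro i
    by_cases hi : (i : ℕ) = X.dim
    · exact ⟨_, hA i, rfl, fun h => absurd hi h⟩
    obtain ⟨x, x1, x2, x3⟩ := exists_mem_FD (h4 i hi) (j := X.dim) fun m m' hm y hy => by
      rw [LinearMap.sub_apply, map_sub, R.ρ_apply, hom_op (mem_degZero.1 (hA i)) m m' hm y hy,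
        sub_zero]
      by_cases h : m = i
      · rw [← h, W.proj_of_mem hy]
        exact W.proj_of_mem_ne hy (by omega)
      · rw [W.proj_of_mem_ne hy h, map_zero]
    refine ⟨AA f dg i l + ChowTheory.End.mk x, add_mem (hA i) (mem_degZero.2 x1), ?_, fun _ => ?_⟩
    · rw [map_add, (red_eq_zero (x := ChowTheory.End.mk x)).2 x2, add_zero]
    · have : R.ρ X (ChowTheory.End.mk x) = _ := x3
      rw [map_add, this, add_sub_cancel]
  choose q q1 q2 q3 using h5
  let d : Fin (2 * X.dim + 1) := ⟨X.dim, by omega⟩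
  refine hasCK_of_red R X (Function.update q d (1 - ∑ i ∈ Finset.univ.erase d, q i))
    (fun n => ?_) (fun n => ?_) ?_
  · rcases eq_or_ne n d with rfl | hn
    · rw [Function.update_self]
      exact sub_mem (one_mem _) (sum_mem fun i _ => q1 i)
    · rw [Function.update_of_ne hn]
      exact q1 n
  · rcases eq_or_ne n d with rfl | hn
    · rw [Function.update_self, map_sub, map_one, map_sum, Finset.sum_congr rfl fun i hi =>
        q3 i fun h => Finset.ne_of_mem_erase hi (Fin.ext h), ← (proj_complete W X).complete,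
        ← Finset.add_sum_erase _ _ (Finset.mem_univ d), add_sub_cancel_right]
    · rw [Function.update_of_ne hn]
      exact q3 n fun h => hn (Fin.ext h)
  · have h6 := complete_update (fun i => red R X (q i)) (fun i j => by
      simp only [q2, map_AA]
      exact AA_mul_AA dg hid' htri' hl i j) d
    have h7 : (fun n => red R X
        (Function.update q d (1 - ∑ i ∈ Finset.univ.erase d, q i) n)) =
        Function.update (fun i => red R X (q i)) d
          (1 - ∑ i ∈ Finset.univ.erase d, red R X (q i)) := by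
      funext n
      rcases eq_or_ne n d with rfl | hn
      · rw [Function.update_self, Function.update_self, map_sub, map_one, map_sum]
      · rw [Function.update_of_ne hn, Function.update_of_ne hn]
    rwa [h7]

end Pool.Agent.P.MP_638e8a_ag.H67
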